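import Mathlib

set_option autoImplicit false

namespace Pool.Agent.MP_38c1f8_pr.Ln

/-- A straight line of the plane `ℂ`. -/
def IsLine (l : Set ℂ) : Prop := ∃ a d : ℂ, d ≠ 0 ∧ l = Set.range fun t : ℝ => a + t * d

/-- The crossing points of a family of lines. -/
def crossings (L : Set (Set ℂ)) : Set ℂ := {z | ∃ l ∈ L, ∃ m ∈ L, l ≠ m ∧ z ∈ l ∧ z ∈ m}

/-- The graph of the arrangement: consecutive crossings on a line of the family are adjacent. -/
def lineGraph (L : Set (Set ℂ)) : SimpleGraph (crossings L) :=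
  SimpleGraph.fromRel fun z w => (∃ l ∈ L, (z : ℂ) ∈ l ∧ (w : ℂ) ∈ l) ∧
    ∀ u ∈ crossings L, u ∉ openSegment ℝ (z : ℂ) (w : ℂ)

end Pool.Agent.MP_38c1f8_pr.Ln
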