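import Mathlib

set_option autoImplicit false

open Set Metric

namespace Pool.Agent.MP_38c1f8_pr.Ln

lemma maxp {K : Set ℂ} (hK : IsClosed K) {H W : ℝ} (hlo : ∀ z ∈ K, H ≤ z.im)
    (hloc : ∀ z ∈ K, |z.re| ≤ W → ∃ d : ℂ, d ≠ 0 ∧ ∀ t : ℝ, |t| ≤ 1 → z + t * d ∈ K)
    {a b α β : ℝ} (ha : -W ≤ a) (hb : b ≤ W)
    (h1 : ∀ z ∈ K, z.re = a → α + β * a ≤ z.im) (h2 : ∀ z ∈ K, z.re = b → α + β * b ≤ z.im)
    {z : ℂ} (hz : z ∈ K) (hm : z.re ∈ Icc a b) : α + β * z.re ≤ z.im := by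
  by_contra hc
  have hQ : ∀ x ∈ Icc a b, 0 ≤ (x - a) * (b - x) := fun x hx =>
    mul_nonneg (sub_nonneg.2 hx.1) (sub_nonneg.2 hx.2)
  set ε := (α + β * z.re - z.im) / ((z.re - a) * (b - z.re) + 1) with hε
  have hq := hQ _ hm
  have hε0 : 0 < ε := div_pos (by linarith) (by linarith)
  set g : ℂ → ℝ := fun u => u.im - (α + β * u.re) + ε * ((u.re - a) * (b - u.re)) with hg
  have hgz : g z < 0 := by
    have : ε * ((z.re - a) * (b - z.re) + 1) = α + β * z.re - z.im := by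
      rw [hε]; field_simp
    simp only [hg]
    linarith
  set T := |α| + |β| * W + |z.im| with hT
  have hW : ∀ x ∈ Icc a b, α + β * x ≤ |α| + |β| * W := fun x hx => by
    have h3 : |x| ≤ W := abs_le.2 ⟨by linarith [hx.1], by linarith [hx.2]⟩
    have h4 := le_abs_self (β * x)
    rw [abs_mul] at h4
    linarith [le_abs_self α, mul_le_mul_of_nonneg_left h3 (abs_nonneg β)]
  have hW0 : 0 ≤ W := by linarith [hm.1, hm.2]
  obtain ⟨w, ⟨w1, w2, -⟩, hw⟩ := ((isCompact_Icc (a := a) (b := b)).reProdIm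
    (isCompact_Icc (a := H) (b := T))).inter_left hK |>.exists_isMinOn (f := g)
    ⟨z, hz, hm, hlo z hz, by
      show z.im ≤ T
      have := mul_nonneg (abs_nonneg β) hW0
      linarith [le_abs_self z.im, abs_nonneg α]⟩ (by fun_prop)
  have hmin : ∀ u ∈ K, u.re ∈ Icc a b → g w ≤ g u := by
    intro u hu hu'
    have h0 : g w ≤ g z := hw ⟨hz, hm, hlo z hz, by
      show z.im ≤ T
      have := mul_nonneg (abs_nonneg β) hW0
      linarith [le_abs_self z.im, abs_nonneg α]⟩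
    by_cases h : u.im ≤ T
    · exact hw ⟨hu, hu', hlo u hu, h⟩
    · have := mul_nonneg hε0.le (hQ _ hu')
      have h5 : 0 ≤ g u := by
        simp only [hg]
        linarith [hW _ hu', abs_nonneg z.im]
      linarith
  have hw0 := (hmin z hz hm).trans_lt hgz
  have w3 : w.re ∈ Icc a b := w2
  have wa : a < w.re := lt_of_le_of_ne w3.1 fun h => by
    have := h1 w w1 h.symm
    simp only [hg, ← h] at hw0
    linarith
  have wb : w.re < b := lt_of_le_of_ne w3.2 fun h => by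
    have := h2 w w1 h
    simp only [hg, h] at hw0
    linarith
  obtain ⟨d, d0, hd⟩ := hloc w w1 (abs_le.2 ⟨by linarith, by linarith⟩)
  set r := min (w.re - a) (b - w.re) with hr
  have r0 : 0 < r := lt_min (by linarith) (by linarith)
  set t := min 1 (r / (|d.re| + 1)) with ht
  have t0 : 0 < t := lt_min one_pos (by positivity)
  have t1 : t * |d.re| ≤ r := by
    have h3 : t * (|d.re| + 1) ≤ r := (le_div_iff₀ (by positivity)).1 (min_le_right _ _)
    linarith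
  have key : ∀ s : ℝ, |s| = t → g w ≤ g (w + s * d) := fun s hs => by
    have h3 : |s * d.re| ≤ r := by rw [abs_mul, hs]; exact t1
    obtain ⟨h4, h5⟩ := abs_le.1 h3
    refine hmin _ (hd s (hs ▸ min_le_left _ _)) ⟨?_, ?_⟩
    all_goals
      simp only [Complex.add_re, Complex.re_ofReal_mul]
      linarith [min_le_left (w.re - a) (b - w.re), min_le_right (w.re - a) (b - w.re)]
  have k1 := key t (abs_of_pos t0)
  have k2 := key (-t) (by rw [abs_neg, abs_of_pos t0])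
  simp only [hg, Complex.add_re, Complex.add_im, Complex.re_ofReal_mul,
    Complex.im_ofReal_mul] at k1 k2
  have k3 : d.re = 0 := by
    by_contra h
    have : 0 < ε * (t * d.re) ^ 2 := by positivity
    nlinarith
  rw [k3] at k1 k2
  have k4 : t * d.im = 0 := by linarith
  exact d0 (Complex.ext k3 ((mul_eq_zero.1 k4).resolve_left t0.ne'))

lemma env {ι : Type} [Nonempty ι] {U : Set ℂ} (hU : IsClosed U) {Λ : Set ι} (φ : ι → Set ℂ) {H W : ℝ}
    (hW : 0 < W) (hloc : ∀ z ∈ U, ∃ l ∈ Λ, ∃ d : ℂ, d ≠ 0 ∧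
      φ l = range (fun t : ℝ => z + t * d) ∧ ∀ t : ℝ, |t| ≤ 1 → z + t * d ∈ U)
    (free : ∀ z ∈ U, |z.re| ≤ W → z.im ≠ H) (hit : (⟨0, H + 1⟩ : ℂ) ∈ U) {n : ℕ}
    (hn : {l ∈ Λ | ∃ y ∈ Icc H (H + 4), (⟨0, y⟩ : ℂ) ∈ φ l}.encard ≤ n) :
    ∃ l ∈ Λ, ∃ z1 ∈ φ l, ∃ z2 ∈ φ l, W / (2 * n) ≤ dist z1 z2 ∧ segment ℝ z1 z2 ⊆ U ∧
      ∀ u ∈ segment ℝ z1 z2, ‖u‖ ≤ W + |H| + 2 := by
  set K : Set ℂ := {z | H ≤ z.im ∧ (z ∈ U ∨ z.im = H + 10)} with hKd
  have hK : IsClosed K := (isClosed_le continuous_const Complex.continuous_im).inter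
    (hU.union (isClosed_eq Complex.continuous_im continuous_const))
  have hK1 : ∀ z ∈ U, H ≤ z.im → |z.re| ≤ W → ∃ l ∈ Λ, ∃ d : ℂ, d ≠ 0 ∧
      φ l = range (fun t : ℝ => z + t * d) ∧ ∀ t : ℝ, |t| ≤ 1 → z + t * d ∈ K := by
    intro z hz h1 h2
    obtain ⟨l, hl, d, d0, e, hd⟩ := hloc z hz
    have h3 : 0 < z.im - H := sub_pos.2 (lt_of_le_of_ne h1 (free z hz h2).symm)
    set s := min 1 ((z.im - H) / (|d.im| + 1)) with hs
    have s0 : 0 < s := lt_min one_pos (by positivity)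
    have s1 : s * (|d.im| + 1) ≤ z.im - H := (le_div_iff₀ (by positivity)).1 (min_le_right _ _)
    refine ⟨l, hl, s * d, mul_ne_zero (by exact_mod_cast s0.ne') d0, ?_, fun t ht => ?_⟩
    · rw [e]
      ext u
      constructor
      · rintro ⟨t, rfl⟩
        refine ⟨t / s, ?_⟩
        have : (s : ℂ) ≠ 0 := by exact_mod_cast s0.ne'
        push_cast
        field_simp
      · rintro ⟨t, rfl⟩
        exact ⟨t * s, by push_cast; ring⟩
    · have h4 : |t * s| ≤ s := by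
        rw [abs_mul, abs_of_pos s0]; exact mul_le_of_le_one_left s0.le ht
      rw [← mul_assoc, ← Complex.ofReal_mul]
      refine ⟨?_, Or.inl (hd _ (h4.trans (min_le_left _ _)))⟩
      have h5 := neg_abs_le (t * s * d.im)
      rw [abs_mul] at h5
      simp only [Complex.add_im, Complex.im_ofReal_mul]
      nlinarith [mul_le_mul_of_nonneg_right h4 (abs_nonneg d.im)]
  have hK2 : ∀ z ∈ K, |z.re| ≤ W → ∃ d : ℂ, d ≠ 0 ∧ ∀ t : ℝ, |t| ≤ 1 → z + t * d ∈ K := by
    rintro z ⟨h1, h2 | h2⟩ h3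
    · obtain ⟨-, -, d, d0, -, hd⟩ := hK1 z h2 h1 h3
      exact ⟨d, d0, hd⟩
    · exact ⟨1, one_ne_zero, fun t _ => ⟨by simpa using h1, Or.inr (by simpa using h2)⟩⟩
  have hf : ∀ x : ℝ, ∃ y : ℝ, (⟨x, y⟩ : ℂ) ∈ K ∧ ∀ z ∈ K, z.re = x → y ≤ z.im := by
    intro x
    have h1 : IsClosed {y : ℝ | (⟨x, y⟩ : ℂ) ∈ K} := by
      refine hK.preimage (f := fun y : ℝ => (⟨x, y⟩ : ℂ)) ?_
      simp only [Complex.mk_eq_add_mul_I]
      fun_prop
    have h2 : BddBelow {y : ℝ | (⟨x, y⟩ : ℂ) ∈ K} := ⟨H, fun y hy => hy.1⟩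
    refine ⟨_, h1.csInf_mem ⟨H + 10, by show H ≤ H + 10; linarith, Or.inr rfl⟩ h2,
      fun z hz e => csInf_le h2 ?_⟩
    subst e
    exact hz
  choose f f1 f2 using hf
  have f0 : ∀ x, H ≤ f x := fun x => (f1 x).1
  have mp := fun {a b α β : ℝ} (ha : -W ≤ a) (hb : b ≤ W) (h1 : α + β * a ≤ f a)
    (h2 : α + β * b ≤ f b) {z : ℂ} (hz : z ∈ K) (hm : z.re ∈ Icc a b) =>
    maxp hK (fun z hz => hz.1) hK2 ha hb (fun z hz e => h1.trans (f2 a z hz e))
      (fun z hz e => h2.trans (f2 b z hz e)) hz hm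
  have f3 : ∀ x ∈ Icc 0 W, f x ≤ H + 2 := by
    intro x hx
    have h0 : 0 < x + W := by linarith [hx.1]
    obtain ⟨β, hβ⟩ : ∃ β, f x - H = β * (x + W) := ⟨_, (div_mul_cancel₀ _ h0.ne').symm⟩
    have h1 := mp (a := -W) (b := x) (α := H + β * W) (β := β) le_rfl hx.2
      (by linarith [f0 (-W)]) (by linarith) (z := ⟨0, H + 1⟩)
      ⟨by show H ≤ H + 1; linarith, Or.inl hit⟩ ⟨by show -W ≤ 0; linarith, hx.1⟩
    have h2 : 0 ≤ β := nonneg_of_mul_nonneg_left (by linarith [f0 x]) h0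
    simp only at h1
    nlinarith [mul_le_mul_of_nonneg_left hx.2 h2]
  have f4 : ∀ x ∈ Icc 0 W, (⟨x, f x⟩ : ℂ) ∈ U := fun x hx =>
    (f1 x).2.resolve_right fun h => by
      have h1 : f x = H + 10 := h
      linarith [f3 x hx]
  have f5 : ∀ x ∈ Icc 0 W, ∃ l ∈ Λ, ∃ m : ℝ, φ l = {w | w.im = f x + m * (w.re - x)} ∧
      ∀ s, |s| ≤ W → f s ≤ f x + m * (s - x) := by
    intro x hx
    obtain ⟨l, hl, d, d0, e, hd⟩ := hK1 _ (f4 x hx) (f0 x) (abs_le.2 ⟨by linarith [hx.1], hx.2⟩)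
    have d1 : d.re ≠ 0 := by
      intro h
      have k1 := f2 x _ (hd 1 (by simp)) (by simp [h])
      have k2 := f2 x _ (hd (-1) (by simp)) (by simp [h])
      simp only [Complex.add_im, Complex.im_ofReal_mul] at k1 k2
      exact d0 (Complex.ext h (by show d.im = 0; linarith))
    obtain ⟨m, hm⟩ : ∃ m, d.im = m * d.re := ⟨_, (div_mul_cancel₀ _ d1).symm⟩
    refine ⟨l, hl, m, ?_, fun s hs => ?_⟩
    · rw [e]
      ext w
      constructor
      · rintro ⟨t, rfl⟩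
        simp only [mem_ofPred_eq, Complex.add_re, Complex.add_im, Complex.re_ofReal_mul,
          Complex.im_ofReal_mul, hm]
        ring
      · intro hw
        have h1 : w.im = f x + m * (w.re - x) := hw
        refine ⟨(w.re - x) / d.re, Complex.ext ?_ ?_⟩
        all_goals
          simp only [Complex.add_re, Complex.add_im, Complex.re_ofReal_mul,
            Complex.im_ofReal_mul, hm, h1]
          field_simp
        ring
    · by_contra hc
      have h0 : s - x ≠ 0 := fun h => hc (by rw [h, sub_eq_zero.1 h]; simp)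
      obtain ⟨β, hβ⟩ : ∃ β, f s - f x = β * (s - x) := ⟨_, (div_mul_cancel₀ _ h0).symm⟩
      set τ := min 1 (|d.re| / |s - x|) with hτ
      have τ0 : 0 < τ := lt_min one_pos (div_pos (abs_pos.2 d1) (abs_pos.2 h0))
      have τ1 : τ ≤ 1 := min_le_left _ _
      have h1 : |τ * (s - x) / d.re| ≤ 1 := by
        rw [abs_div, abs_mul, abs_of_pos τ0, div_le_one (abs_pos.2 d1)]
        exact (le_div_iff₀ (abs_pos.2 h0)).1 (min_le_right _ _)
      have h2 := hd _ h1
      set u : ℂ := ⟨x, f x⟩ + (τ * (s - x) / d.re : ℝ) * d with hu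
      have u1 : u.re = x + τ * (s - x) := by
        simp only [hu, Complex.add_re, Complex.re_ofReal_mul]; field_simp
      have u2 : u.im = f x + m * (τ * (s - x)) := by
        simp only [hu, Complex.add_im, Complex.im_ofReal_mul, hm]; field_simp
      obtain ⟨s1, s2⟩ := abs_le.1 hs
      have h3 : f x - β * x + β * u.re ≤ u.im := by
        rcases lt_or_gt_of_ne h0 with h | h
        · exact mp s1 hx.2 (by linarith) (by linarith) h2
            (by rw [u1]; constructor <;> nlinarith)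
        · exact mp (a := x) (by linarith [hx.1]) s2 (by linarith) (by linarith) h2
            (by rw [u1]; constructor <;> nlinarith)
      rw [u1, u2] at h3
      nlinarith
  choose! l l1 m l2 l3 using f5
  set x : ℕ → ℝ := fun j => j * (W / (2 * n)) with hx
  have x0 : 0 ≤ W / (2 * n) := by positivity
  have x1 : ∀ j ≤ n, 0 ≤ x j ∧ x j ≤ W / 2 := fun j hj => by
    refine ⟨by positivity, (mul_le_mul_of_nonneg_right (Nat.cast_le.2 hj) x0).trans ?_⟩
    rcases Nat.eq_zero_or_pos n with h | h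
    · simp [h]; linarith
    · have : (n : ℝ) ≠ 0 := by positivity
      exact le_of_eq (by field_simp)
  have x2 : ∀ j ≤ n, x j ∈ Icc 0 W := fun j hj => ⟨(x1 j hj).1, by linarith [(x1 j hj).2]⟩
  obtain ⟨i, hi, j, hj, hij, e⟩ : ∃ i ≤ n, ∃ j ≤ n, i < j ∧ l (x i) = l (x j) := by
    obtain ⟨i, hi, j, hj, hij, e⟩ := exists_ne_map_eq_of_encard_lt_of_maps_to
      (s := Iic n) (f := fun j => l (x j)) (hn.trans_lt (by
        rw [← Finset.coe_Iic, encard_coe_eq_coe_finsetCard, Nat.card_Iic]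
        exact_mod_cast Nat.lt_succ_self n)) (fun j hj => by
      obtain ⟨a1, a2⟩ := x1 j hj
      have a3 := l3 _ (x2 j hj) 0 (by simp [hW.le])
      have a4 := l3 _ (x2 j hj) W (by rw [abs_of_pos hW])
      have a5 := f3 _ (x2 j hj)
      refine ⟨l1 _ (x2 j hj), f (x j) + m (x j) * (0 - x j), ⟨by linarith [f0 0], ?_⟩, ?_⟩
      · rcases le_total 0 (m (x j)) with h | h
        · nlinarith
        · nlinarith [f0 W]
      · simp only [l2 _ (x2 j hj), mem_ofPred_eq])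
    rcases lt_or_gt_of_ne hij with h | h
    exacts [⟨i, hi, j, hj, h, e⟩, ⟨j, hj, i, hi, h, e.symm⟩]
  have xi := x2 i hi
  have xj := x2 j hj
  have z1 : (⟨x i, f (x i)⟩ : ℂ) ∈ φ (l (x i)) := by rw [l2 _ xi]; simp
  have z2 : (⟨x j, f (x j)⟩ : ℂ) ∈ φ (l (x i)) := by rw [e, l2 _ xj]; simp
  have z3 : f (x j) = f (x i) + m (x i) * (x j - x i) := by rw [l2 _ xi] at z2; exact z2
  have z4 : W / (2 * n) ≤ x j - x i := by
    have : (i : ℝ) + 1 ≤ j := by exact_mod_cast hij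
    simp only [hx]
    nlinarith
  have z5 : ∀ u ∈ segment ℝ (⟨x i, f (x i)⟩ : ℂ) ⟨x j, f (x j)⟩, u.re ∈ Icc 0 W ∧
      u = ⟨u.re, f u.re⟩ := by
    rintro u ⟨a, b, ha, hb, hab, rfl⟩
    set u : ℂ := a • ⟨x i, f (x i)⟩ + b • ⟨x j, f (x j)⟩ with hu
    obtain rfl : a = 1 - b := by linarith
    have u1 : u.re = x i + b * (x j - x i) := by simp [hu]; ring
    have u2 : u.im = f (x i) + m (x i) * (u.re - x i) := by rw [u1]; simp [hu, z3]; ring
    have u3 : u.re ∈ Icc (x i) (x j) := by rw [u1]; constructor <;> nlinarith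
    have u4 : u.re ∈ Icc 0 W := ⟨xi.1.trans u3.1, u3.2.trans xj.2⟩
    have h1 := l3 _ xi u.re (abs_le.2 ⟨by linarith [u4.1], u4.2⟩)
    have h2 := mp (a := x i) (b := x j) (α := f (x i) - m (x i) * x i) (β := m (x i))
      (by linarith [xi.1]) xj.2 (by linarith) (by linarith) (f1 u.re) u3
    simp only at h2
    exact ⟨u4, Complex.ext rfl (by show u.im = f u.re; linarith)⟩
  refine ⟨_, l1 _ xi, _, z1, _, z2, z4.trans ?_, fun u hu => ?_, fun u hu => ?_⟩
  · rw [dist_comm, dist_eq_norm]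
    exact (le_abs_self _).trans (Complex.abs_re_le_norm (⟨x j, f (x j)⟩ - ⟨x i, f (x i)⟩ : ℂ))
  · rw [(z5 u hu).2]
    exact f4 _ (z5 u hu).1
  · obtain ⟨h1, h2⟩ := z5 u hu
    have h3 : u.im = f u.re := congrArg Complex.im h2
    have h4 : |u.im| ≤ |H| + 2 := abs_le.2
      ⟨by linarith [f0 u.re, neg_abs_le H], by linarith [f3 _ h1, le_abs_self H]⟩
    have h5 := Complex.norm_le_abs_re_add_abs_im u
    rw [abs_of_nonneg h1.1] at h5
    linarith [h1.2]

end Pool.Agent.MP_38c1f8_pr.Ln
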