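import Mathlib
import Pool.Agent.MP_38c1f8_pr.Defs
import Pool.Agent.MP_38c1f8_pr.Ln.Defs
import Pool.Agent.MP_38c1f8_pr.Ln.Env

set_option autoImplicit false

open Set Metric

namespace Pool.Agent.MP_38c1f8_pr.Ln

/-- A simple arrangement of lines of bounded geometry. -/
structure Arr (L : Set (Set ℂ)) (M : ℕ) : Prop where
  line : ∀ l ∈ L, IsLine l
  two : ∀ z : ℂ, {l ∈ L | z ∈ l}.encard ≤ 2
  dense : ∀ l ∈ L, ∀ z ∈ l, ∃ v ∈ crossings L, v ∈ l ∧ dist z v ≤ M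
  few : ∀ z : ℂ, (crossings L ∩ closedBall z 1).encard ≤ M

variable {L : Set (Set ℂ)} {M : ℕ}

lemma adj_iff {z w : crossings L} : (lineGraph L).Adj z w ↔ z ≠ w ∧
    (∃ l ∈ L, (z : ℂ) ∈ l ∧ (w : ℂ) ∈ l) ∧ ∀ u ∈ crossings L, u ∉ openSegment ℝ (z : ℂ) (w : ℂ) := by
  rw [lineGraph, SimpleGraph.fromRel_adj]
  refine and_congr_right fun _ => ⟨fun h => h.elim id fun ⟨⟨l, h1, h2, h3⟩, h4⟩ =>
    ⟨⟨l, h1, h3, h2⟩, by rwa [openSegment_symm]⟩, Or.inl⟩

lemma IsLine.rebase {l : Set ℂ} (h : IsLine l) {z : ℂ} (hz : z ∈ l) :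
    ∃ d : ℂ, d ≠ 0 ∧ l = range fun t : ℝ => z + t * d := by
  obtain ⟨a, d, d0, rfl⟩ := h
  obtain ⟨s, rfl⟩ := hz
  refine ⟨d, d0, Set.ext fun u => ⟨?_, ?_⟩⟩
  · rintro ⟨t, rfl⟩
    exact ⟨t - s, by push_cast; ring⟩
  · rintro ⟨t, rfl⟩
    exact ⟨s + t, by push_cast; ring⟩

lemma range_scale (z d : ℂ) {s : ℝ} (hs : s ≠ 0) :
    (range fun t : ℝ => z + t * (s * d)) = range fun t : ℝ => z + t * d := by
  refine Set.ext fun u => ⟨?_, ?_⟩
  · rintro ⟨t, rfl⟩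
    exact ⟨t * s, by push_cast; ring⟩
  · rintro ⟨t, rfl⟩
    have : (s : ℂ) ≠ 0 := by exact_mod_cast hs
    exact ⟨t / s, by push_cast; field_simp⟩

lemma IsLine.eq_range {l : Set ℂ} (h : IsLine l) {z w : ℂ} (hz : z ∈ l) (hw : w ∈ l)
    (hne : z ≠ w) : l = range fun t : ℝ => z + t * (w - z) := by
  obtain ⟨d, d0, e⟩ := h.rebase hz
  rw [e] at hw
  obtain ⟨s, rfl⟩ := hw
  have hs : s ≠ 0 := by rintro rfl; simp at hne
  simp only [add_sub_cancel_left]
  rw [range_scale z d hs, e]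

lemma seg_mem (z d : ℂ) {a b t : ℝ} (h1 : a ≤ t) (h2 : t ≤ b) :
    z + t * d ∈ segment ℝ (z + a * d) (z + b * d) := by
  obtain ⟨x, y, hx, hy, hxy, rfl⟩ : t ∈ segment ℝ a b := by
    rw [segment_eq_Icc (h1.trans h2)]; exact ⟨h1, h2⟩
  refine ⟨x, y, hx, hy, hxy, ?_⟩
  obtain rfl : x = 1 - y := by linarith
  simp only [Complex.real_smul, smul_eq_mul]
  push_cast
  ring

lemma Arr.count (h : Arr L M) (z : ℂ) (R : ℕ) :
    (crossings L ∩ closedBall z R).encard ≤ (M * (2 * R + 1) ^ 2 : ℕ) := by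
  have h1 : crossings L ∩ closedBall z R ⊆
      ⋃ p ∈ Finset.Icc (-R : ℤ) R ×ˢ Finset.Icc (-R : ℤ) R,
        crossings L ∩ closedBall (z + ⟨p.1, p.2⟩) 1 := by
    rintro w ⟨w1, w2⟩
    rw [mem_closedBall, dist_eq_norm] at w2
    have hr : ∀ x : ℝ, |x| ≤ R → round x ∈ Finset.Icc (-R : ℤ) R := fun x hx => by
      obtain ⟨a1, a2⟩ := abs_le.1 (abs_sub_round x)
      obtain ⟨a3, a4⟩ := abs_le.1 hx
      have a5 : (round x : ℝ) < (R + 1 : ℤ) := by push_cast; linarith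
      have a6 : ((-R - 1 : ℤ) : ℝ) < round x := by push_cast; linarith
      have a7 := Int.cast_lt.1 a5
      have a8 := Int.cast_lt.1 a6
      rw [Finset.mem_Icc]
      omega
    refine mem_biUnion (x := (round (w - z).re, round (w - z).im)) (Finset.mem_product.2
      ⟨hr _ ((Complex.abs_re_le_norm _).trans w2), hr _ ((Complex.abs_im_le_norm _).trans w2)⟩)
      ⟨w1, ?_⟩
    rw [mem_closedBall, dist_eq_norm, ← sub_sub]
    refine (Complex.norm_le_abs_re_add_abs_im _).trans ?_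
    have a1 := abs_sub_round (w - z).re
    have a2 := abs_sub_round (w - z).im
    rw [Complex.sub_re (w - z), Complex.sub_im (w - z)]
    linarith
  refine (encard_le_encard h1).trans ((Finset.set_encard_biUnion_le _ _).trans
    ((Finset.sum_le_card_nsmul _ _ _ fun p _ => h.few _).trans (le_of_eq ?_)))
  have h2 : (Finset.Icc (-R : ℤ) R).card = 2 * R + 1 := by rw [Int.card_Icc]; omega
  rw [Finset.card_product, h2, nsmul_eq_mul]
  push_cast
  ring

lemma Arr.fin (h : Arr L M) (z : ℂ) (R : ℝ) : (crossings L ∩ closedBall z R).Finite :=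
  (finite_of_encard_le_coe (h.count z ⌈R⌉₊)).subset
    (inter_subset_inter_right _ (closedBall_subset_closedBall (Nat.le_ceil R)))

lemma Arr.nxt (h : Arr L M) {l : Set ℂ} (hl : l ∈ L) {z d : ℂ} (d0 : d ≠ 0)
    (e : l = range fun t : ℝ => z + t * d) : ∃ t : ℝ, 0 < t ∧ z + t * d ∈ crossings L ∧
      t * ‖d‖ ≤ 2 * M + 1 ∧ ∀ s : ℝ, 0 < s → s < t → z + s * d ∉ crossings L := by
  have hd : 0 < ‖d‖ := norm_pos_iff.2 d0
  obtain ⟨v, v1, v2, v3⟩ := h.dense l hl (z + ((M + 1) / ‖d‖ : ℝ) * d) (e ▸ ⟨_, rfl⟩)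
  rw [e] at v2
  obtain ⟨t0, rfl⟩ := v2
  rw [dist_add_left, dist_eq_norm, ← sub_mul, ← Complex.ofReal_sub, norm_mul, Complex.norm_real,
    ← norm_norm d, ← norm_mul, norm_norm, sub_mul, div_mul_cancel₀ _ hd.ne'] at v3
  obtain ⟨a1, a2⟩ := abs_le.1 v3
  have hf : {t : ℝ | 0 < t ∧ z + t * d ∈ crossings L ∧ t * ‖d‖ ≤ 2 * M + 1}.Finite := by
    refine ((h.fin z (2 * M + 1)).preimage (f := fun t : ℝ => z + t * d) fun s _ t _ hst => ?_).subset
      fun t ht => ⟨ht.2.1, ?_⟩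
    · exact_mod_cast mul_right_cancel₀ d0 (add_left_cancel hst)
    · rw [mem_closedBall, dist_self_add_left, norm_mul, Complex.norm_real,
        Real.norm_of_nonneg ht.1.le]
      exact ht.2.2
  obtain ⟨t, ⟨t1, t2, t3⟩, ht⟩ := exists_min_image _ id hf
    ⟨t0, (mul_pos_iff_of_pos_right hd).1 (by linarith), v1, by linarith⟩
  exact ⟨t, t1, t2, t3, fun s s1 s2 s3 =>
    (ht s ⟨s1, s3, by nlinarith⟩).not_gt s2⟩

lemma Arr.adj_dist (h : Arr L M) {z w : crossings L} (hzw : (lineGraph L).Adj z w) :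
    dist (z : ℂ) w ≤ 2 * M + 1 := by
  obtain ⟨h1, ⟨l, hl, h2, h3⟩, h4⟩ := adj_iff.1 hzw
  have h5 : (z : ℂ) ≠ w := fun e => h1 (Subtype.ext e)
  obtain ⟨t, t1, t2, t3, -⟩ := h.nxt hl (sub_ne_zero.2 h5.symm) ((h.line l hl).eq_range h2 h3 h5)
  have h6 : 1 ≤ t := by
    by_contra h6
    refine h4 _ t2 ⟨1 - t, t, by linarith, t1, by ring, ?_⟩
    simp only [Complex.real_smul]
    push_cast
    ring
  rw [dist_comm, dist_eq_norm]
  nlinarith [norm_nonneg ((w : ℂ) - z)]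

lemma Arr.nbr (h : Arr L M) {l : Set ℂ} (hl : l ∈ L) {z : crossings L} {d : ℂ} (d0 : d ≠ 0)
    (e : l = range fun t : ℝ => (z : ℂ) + t * d) : ∃ t : ℝ, 0 < t ∧ ∃ w : crossings L,
      (w : ℂ) = z + t * d ∧ (lineGraph L).Adj z w := by
  obtain ⟨t, t1, t2, -, t4⟩ := h.nxt hl d0 e
  refine ⟨t, t1, ⟨_, t2⟩, rfl, adj_iff.2 ⟨fun e' => ?_, ⟨l, hl, e ▸ ⟨0, by simp⟩, e ▸ ⟨t, rfl⟩⟩, ?_⟩⟩
  · have : (z : ℂ) = z + t * d := congrArg Subtype.val e'
    simp [d0, t1.ne'] at this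
  · rintro u hu ⟨a, b, ha, hb, hab, rfl⟩
    refine t4 (b * t) (by positivity) (by nlinarith) ?_
    convert hu using 1
    obtain rfl : a = 1 - b := by linarith
    simp only [Complex.real_smul]
    push_cast
    ring

/-- Union of the closed edges with both ends in `S`. -/
def edges (S : Set (crossings L)) : Set ℂ :=
  {u | ∃ z ∈ S, ∃ w ∈ S, (lineGraph L).Adj z w ∧ u ∈ segment ℝ (z : ℂ) w}

lemma Arr.edges_near (h : Arr L M) {z w : crossings L} (hzw : (lineGraph L).Adj z w) {u : ℂ}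
    (hu : u ∈ segment ℝ (z : ℂ) w) : dist (z : ℂ) u ≤ 2 * M + 1 := by
  have := (convex_closedBall (z : ℂ) (2 * M + 1)).segment_subset
    (mem_closedBall_self (by positivity)) (mem_closedBall'.2 (h.adj_dist hzw)) hu
  exact mem_closedBall'.1 this

lemma Arr.edges_closed (h : Arr L M) (S : Set (crossings L)) : IsClosed (edges S) := by
  refine isClosed_of_closure_subset fun u hu => ?_
  have hf : ((↑) ⁻¹' (crossings L ∩ closedBall u (2 * M + 2)) : Set (crossings L)).Finite :=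
    (h.fin u _).preimage Subtype.val_injective.injOn
  set A := {p ∈ ((↑) ⁻¹' (crossings L ∩ closedBall u (2 * M + 2)) : Set (crossings L)) ×ˢ
    ((↑) ⁻¹' (crossings L ∩ closedBall u (2 * M + 2)) : Set (crossings L)) |
      p.1 ∈ S ∧ p.2 ∈ S ∧ (lineGraph L).Adj p.1 p.2} with hA
  have h1 : IsClosed (⋃ p ∈ A, segment ℝ (p.1 : ℂ) p.2) :=
    ((hf.prod hf).subset (sep_subset _ _)).isClosed_biUnion fun p _ => by
      rw [segment_eq_image]
      exact (isCompact_Icc.image (by fun_prop)).isClosed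
  have h2 : ball u 1 ∩ edges S ⊆ ⋃ p ∈ A, segment ℝ (p.1 : ℂ) p.2 := by
    rintro v ⟨v1, z, hz, w, hw, hzw, v2⟩
    have a1 := h.edges_near hzw v2
    have a2 := h.edges_near hzw.symm (by rwa [segment_symm])
    rw [mem_ball] at v1
    refine mem_biUnion (x := (z, w)) ⟨⟨⟨z.2, ?_⟩, w.2, ?_⟩, hz, hw, hzw⟩ v2
    · exact mem_closedBall.2 (by linarith [dist_triangle (z : ℂ) v u])
    · exact mem_closedBall.2 (by linarith [dist_triangle (w : ℂ) v u])
  obtain ⟨p, hp, hu'⟩ := mem_iUnion₂.1 (h1.closure_subset_iff.2 h2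
    (isOpen_ball.inter_closure ⟨mem_ball_self one_pos, hu⟩))
  exact ⟨p.1, hp.2.1, p.2, hp.2.2.1, hp.2.2.2, hu'⟩

lemma mem_of_edges {S : Set (crossings L)} {v : crossings L} (hv : (v : ℂ) ∈ edges S) : v ∈ S := by
  obtain ⟨z, hz, w, hw, hzw, h⟩ := hv
  by_contra hn
  exact (adj_iff.1 hzw).2.2 _ v.2 (mem_openSegment_of_ne_left_right
    (fun e => hn (Subtype.ext e ▸ hz)) (fun e => hn (Subtype.ext e ▸ hw)) h)

lemma Arr.vertex_loc (h : Arr L M) {S : Set (crossings L)}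
    (hS : ∀ v ∈ S, ((lineGraph L).neighborSet v \ S).Subsingleton) {z : crossings L}
    (hz : z ∈ S) : ∃ l ∈ L, ∃ d : ℂ, d ≠ 0 ∧ l = range (fun t : ℝ => (z : ℂ) + t * d) ∧
      ∀ t : ℝ, |t| ≤ 1 → (z : ℂ) + t * d ∈ edges S := by
  by_contra hc
  have key : ∀ l ∈ L, (z : ℂ) ∈ l → ∃ w ∈ (lineGraph L).neighborSet z \ S, (w : ℂ) ∈ l := by
    intro l hl hzl
    obtain ⟨d, d0, e⟩ := (h.line l hl).rebase hzl
    have e' : l = range fun t : ℝ => (z : ℂ) + t * -d := by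
      rw [e, ← range_scale z d (s := -1) (by norm_num)]; simp
    obtain ⟨a, a0, v, v1, v2⟩ := h.nbr hl d0 e
    obtain ⟨b, b0, w, w1, w2⟩ := h.nbr hl (neg_ne_zero.2 d0) e'
    by_cases hv : v ∈ S
    swap
    · exact ⟨v, ⟨v2, hv⟩, e ▸ ⟨a, v1.symm⟩⟩
    by_cases hw : w ∈ S
    swap
    · exact ⟨w, ⟨w2, hw⟩, e' ▸ ⟨b, w1.symm⟩⟩
    have m0 : 0 < min a b := lt_min a0 b0
    refine absurd ⟨l, hl, (min a b : ℝ) * d, mul_ne_zero (by exact_mod_cast m0.ne') d0,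
      by rw [range_scale _ _ m0.ne', e], fun t ht => ?_⟩ hc
    obtain ⟨t1, t2⟩ := abs_le.1 ht
    rw [← mul_assoc, ← Complex.ofReal_mul]
    rcases le_total 0 t with t0 | t0
    · refine ⟨z, hz, v, hv, v2, ?_⟩
      have := seg_mem z d (a := 0) (b := a) (t := t * min a b) (by positivity)
        (by nlinarith [min_le_left a b])
      rw [v1]
      simpa using this
    · refine ⟨z, hz, w, hw, w2, ?_⟩
      have := seg_mem z (-d) (a := 0) (b := b) (t := -t * min a b) (by nlinarith)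
        (by nlinarith [min_le_right a b])
      rw [w1]
      simpa using this
  obtain ⟨l, hl, m, hm, hlm, z1, z2⟩ := z.2
  obtain ⟨v, v1, v2⟩ := key l hl z1
  obtain ⟨w, w1, w2⟩ := key m hm z2
  obtain rfl := hS z hz v1 w1
  have hne : (z : ℂ) ≠ v := fun e => (lineGraph L).ne_of_adj v1.1 (Subtype.ext e)
  exact hlm (((h.line l hl).eq_range z1 v2 hne).trans ((h.line m hm).eq_range z2 w2 hne).symm)

lemma Arr.edges_loc (h : Arr L M) {S : Set (crossings L)}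
    (hS : ∀ v ∈ S, ((lineGraph L).neighborSet v \ S).Subsingleton) {u : ℂ} (hu : u ∈ edges S) :
    ∃ l ∈ L, ∃ d : ℂ, d ≠ 0 ∧ l = range (fun t : ℝ => u + t * d) ∧
      ∀ t : ℝ, |t| ≤ 1 → u + t * d ∈ edges S := by
  by_cases hv : u ∈ crossings L
  · exact h.vertex_loc hS (z := ⟨u, hv⟩) (mem_of_edges hu)
  obtain ⟨z, hz, w, hw, hzw, hu⟩ := hu
  obtain ⟨a, b, ha, hb, hab, rfl⟩ := mem_openSegment_of_ne_left_right
    (fun e : (z : ℂ) = u => hv (e ▸ z.2)) (fun e : (w : ℂ) = u => hv (e ▸ w.2)) hu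
  obtain ⟨h1, ⟨l, hl, h2, h3⟩, -⟩ := adj_iff.1 hzw
  have h5 : (z : ℂ) ≠ w := fun e => h1 (Subtype.ext e)
  have e := (h.line l hl).eq_range h2 h3 h5
  have e1 : a • (z : ℂ) + b • (w : ℂ) = z + b * (w - z) := by
    obtain rfl : a = 1 - b := by linarith
    simp only [Complex.real_smul]
    push_cast
    ring
  have m0 : 0 < min a b := lt_min ha hb
  refine ⟨l, hl, (min a b : ℝ) * (w - z), mul_ne_zero (by exact_mod_cast m0.ne')
    (sub_ne_zero.2 h5.symm), ?_, fun t ht => ⟨z, hz, w, hw, hzw, ?_⟩⟩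
  · rw [range_scale _ _ m0.ne', e, e1]
    refine Set.ext fun u => ⟨?_, ?_⟩
    · rintro ⟨t, rfl⟩
      exact ⟨t - b, by push_cast; ring⟩
    · rintro ⟨t, rfl⟩
      exact ⟨b + t, by push_cast; ring⟩
  · obtain ⟨t1, t2⟩ := abs_le.1 ht
    have := seg_mem z (w - z) (a := 0) (b := 1) (t := b + t * min a b)
      (by nlinarith [min_le_right a b]) (by nlinarith [min_le_left a b])
    rw [e1]
    convert this using 1
    · simp
    · push_cast; ring

lemma Arr.seg (h : Arr L M) {l : Set ℂ} (hl : l ∈ L) {z1 z2 : ℂ} (h1 : z1 ∈ l) (h2 : z2 ∈ l)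
    {k : ℕ} (hk : 3 * ((M : ℝ) + 1) * (k + 1) ≤ dist z1 z2) : ∃ v w : crossings L,
      (v : ℂ) ∈ segment ℝ z1 z2 ∧ (w : ℂ) ∈ segment ℝ z1 z2 ∧
      (k : ℕ∞) ≤ {u : crossings L | (u : ℂ) ∈ segment ℝ (v : ℂ) w}.encard := by
  have hd : 0 < dist z1 z2 := lt_of_lt_of_le (by positivity) hk
  have e := (h.line l hl).eq_range h1 h2 (dist_pos.1 hd)
  rw [dist_comm, dist_eq_norm] at hd hk
  set d := z2 - z1 with hdd
  have h3 : ∀ j : ℕ, ∃ t : ℝ, z1 + t * d ∈ crossings L ∧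
      |(3 * j + 1) * ((M : ℝ) + 1) - t * ‖d‖| ≤ M := fun j => by
    obtain ⟨v, v1, v2, v3⟩ := h.dense l hl (z1 + ((3 * j + 1) * (M + 1) / ‖d‖ : ℝ) * d)
      (e ▸ ⟨_, rfl⟩)
    rw [e] at v2
    obtain ⟨t, rfl⟩ := v2
    rw [dist_add_left, dist_eq_norm, ← sub_mul, ← Complex.ofReal_sub, norm_mul, Complex.norm_real,
      ← norm_norm d, ← norm_mul, norm_norm, sub_mul, div_mul_cancel₀ _ hd.ne'] at v3
    exact ⟨t, v1, v3⟩
  choose t t1 t2 using h3
  have hM : (0 : ℝ) ≤ M := by positivity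
  have t3 : StrictMono t := strictMono_nat_of_lt_succ fun j => by
    have a1 := abs_le.1 (t2 j)
    have a2 := abs_le.1 (t2 (j + 1))
    push_cast at a2
    exact lt_of_mul_lt_mul_right (by linarith [a1.1, a2.2]) hd.le
  have t4 : 0 ≤ t 0 := by
    have a1 := abs_le.1 (t2 0)
    push_cast at a1
    exact nonneg_of_mul_nonneg_left (by linarith [a1.2]) hd
  have t5 : t k ≤ 1 := by
    have a1 := abs_le.1 (t2 k)
    exact le_of_mul_le_mul_right (by linarith [a1.1]) hd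
  have t6 : ∀ s : ℝ, 0 ≤ s → s ≤ 1 → z1 + s * d ∈ segment ℝ z1 z2 := fun s s1 s2 => by
    simpa [hdd] using seg_mem z1 d s1 s2
  have t7 := t3.monotone (Nat.zero_le k)
  refine ⟨⟨_, t1 0⟩, ⟨_, t1 k⟩, t6 _ t4 (by linarith), t6 _ (by linarith) t5, ?_⟩
  have h4 : (Iio k).encard = k := by
    rw [← Finset.coe_range, encard_coe_eq_coe_finsetCard, Finset.card_range]
  rw [← h4]
  refine encard_le_encard_of_injOn (f := fun j => ⟨_, t1 j⟩)
    (fun j hj => seg_mem z1 d (t3.monotone (Nat.zero_le j)) (t3.monotone (le_of_lt hj)))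
    fun i _ j _ hij => t3.injective ?_
  have h5 : z1 + t i * d = z1 + t j * d := congrArg Subtype.val hij
  exact_mod_cast mul_right_cancel₀ (norm_pos_iff.1 hd) (add_left_cancel h5)

lemma Arr.lines (h : Arr L M) (z : ℂ) :
    {l ∈ L | ∃ u ∈ l, dist u z ≤ 2}.encard ≤ (M * (2 * (M + 2) + 1) ^ 2 * 2 : ℕ) := by
  have hf := h.fin z (M + 2 : ℕ)
  have h1 : {l ∈ L | ∃ u ∈ l, dist u z ≤ 2} ⊆ ⋃ v ∈ hf.toFinset, {l ∈ L | v ∈ l} := by
    rintro l ⟨hl, u, u1, u2⟩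
    obtain ⟨v, v1, v2, v3⟩ := h.dense l hl u u1
    refine mem_biUnion (x := v) (hf.mem_toFinset.2 ⟨v1, mem_closedBall.2 ?_⟩) ⟨hl, v2⟩
    push_cast
    linarith [dist_triangle_left v z u, dist_comm u z]
  refine (encard_le_encard h1).trans ((Finset.set_encard_biUnion_le _ _).trans
    ((Finset.sum_le_card_nsmul _ _ _ fun p _ => h.two _).trans ?_))
  rw [nsmul_eq_mul, ← hf.encard_eq_coe_toFinset_card, Nat.cast_mul]
  exact mul_le_mul_left (h.count z (M + 2)) _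

/-- A healthy straight segment with at least `k` crossings near `x`. -/
def Bad (L : Set (Set ℂ)) (x : ℂ) (R : ℝ) (k : ℕ) : Set (crossings L → Bool) :=
  {c | ∃ v w : crossings L, dist (v : ℂ) x ≤ R ∧ dist (w : ℂ) x ≤ R ∧
    (k : ℕ∞) ≤ {u : crossings L | (u : ℂ) ∈ segment ℝ (v : ℂ) w}.encard ∧
    ∀ u : crossings L, (u : ℂ) ∈ segment ℝ (v : ℂ) w → c u = false}

lemma stay {V : Type} (G : SimpleGraph V) (c : V → Bool) {v : V} {n m : ℕ} (hnm : n ≤ m)
    (h : (contaminate G)^[n] c v = true) : (contaminate G)^[m] c v = true := by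
  induction m, hnm using Nat.le_induction with
  | base => exact h
  | succ m _ ih => rw [Function.iterate_succ_apply']; simp [contaminate, ih]

lemma core {V : Type} (G : SimpleGraph V) (c : V → Bool) {v : V}
    (hv : ¬ ∃ n, (contaminate G)^[n] c v = true) :
    (G.neighborSet v \ {v | ¬ ∃ n, (contaminate G)^[n] c v = true}).Subsingleton := by
  rintro a ⟨a1, a2⟩ b ⟨b1, b2⟩
  obtain ⟨n, hn⟩ := not_not.1 a2
  obtain ⟨m, hm⟩ := not_not.1 b2
  by_contra hab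
  refine hv ⟨max n m + 1, ?_⟩
  rw [Function.iterate_succ_apply', contaminate, if_pos (Or.inr ?_)]
  rw [← encard_pair hab]
  exact encard_le_encard (pair_subset ⟨G.adj_symm a1, stay G c (le_max_left _ _) hn⟩
    ⟨G.adj_symm b1, stay G c (le_max_right _ _) hm⟩)

lemma Arr.det (h : Arr L M) : ∃ C : ℕ, ∀ c ∉ invasionSet (lineGraph L), ∀ (x : ℂ) (k0 : ℕ),
    (∀ v : crossings L, dist (v : ℂ) x ≤ ((C * (k0 + 2)) ^ 2 + 2 * M + 1 : ℕ) → c v = true) →
    ∃ k, k0 ≤ k ∧ c ∈ Bad L x (2 * (C * (k + 2)) ^ 2 + 1 : ℕ) k := by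
  set n := M * (2 * (M + 2) + 1) ^ 2 * 2 + 1 with hn
  refine ⟨6 * (M + 1) * n, fun c hc x k0 hx => ?_⟩
  set C : ℝ := ((6 * (M + 1) * n : ℕ) : ℝ) with hC
  have n1 : (1 : ℝ) ≤ n := by exact_mod_cast Nat.le_add_left 1 _
  have hM : (0 : ℝ) ≤ M := by positivity
  have hC' : C = 6 * (M + 1) * n := by rw [hC]; push_cast; ring
  have C1 : 1 ≤ C := by rw [hC']; nlinarith
  set S := {v | ¬ ∃ n, (contaminate (lineGraph L))^[n] c v = true} with hSd
  have hS : ∀ v ∈ S, ((lineGraph L).neighborSet v \ S).Subsingleton := fun v hv => core _ c hv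
  have S0 : ∀ v ∈ S, c v = false := fun v hv => Bool.eq_false_iff.2 fun e => hv ⟨0, e⟩
  obtain ⟨z0, hz0⟩ : S.Nonempty := not_forall.1 hc
  obtain ⟨y, hy, hd⟩ := (h.edges_closed S).exists_infDist_eq_dist (by
    obtain ⟨-, -, d, -, -, h1⟩ := h.vertex_loc hS hz0
    exact ⟨_, h1 0 (by simp)⟩) x
  set d := dist x y with hdd
  have d1 : (C * (k0 + 2)) ^ 2 ≤ d := by
    obtain ⟨z, hz, w, -, hzw, h1⟩ := hy
    have h2 := h.edges_near hzw h1
    have h3 := mt (hx z) (by rw [S0 z hz]; simp)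
    rw [Nat.cast_add, Nat.cast_add, Nat.cast_pow, Nat.cast_mul, ← hC] at h3
    push_cast at h3
    linarith [dist_triangle_right (z : ℂ) x y]
  have d2 : C * (k0 + 2) ≤ √d := Real.le_sqrt_of_sq_le d1
  have k1 : (0 : ℝ) ≤ k0 := by positivity
  have d3 : 2 ≤ √d := by nlinarith
  have d4 : √d ^ 2 = d := Real.sq_sqrt dist_nonneg
  have d5 : 4 ≤ d := by nlinarith
  set e : ℂ := (y - x) / ⟨0, d⟩ with he
  have e0 : ‖(⟨0, d⟩ : ℂ)‖ = d := by
    rw [Complex.mk_eq_add_mul_I]; simp [hdd]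
  have e1 : ‖e‖ = 1 := by
    rw [he, norm_div, e0, ← dist_eq_norm, dist_comm, div_self (by linarith)]
  have e2 : e ≠ 0 := by rw [← norm_pos_iff, e1]; exact one_pos
  have e3 : ∀ u v : ℂ, dist (x + e * u) (x + e * v) = dist u v := fun u v => by
    rw [dist_add_left, dist_eq_norm, ← mul_sub, norm_mul, e1, one_mul, dist_eq_norm]
  have e4 : ∀ u : ℂ, dist (x + e * u) x = ‖u‖ := fun u => by simpa using e3 u 0
  obtain ⟨l, hl, z1, hz1, z2, hz2, a1, a2, a3⟩ := env (U := (fun u => x + e * u) ⁻¹' edges S)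
    ((h.edges_closed S).preimage (by fun_prop)) (Λ := L) (fun l => (fun u => x + e * u) ⁻¹' l)
    (H := d - 1) (W := √d) (by linarith) (fun u hu => by
      obtain ⟨l, hl, b, b0, b1, b2⟩ := h.edges_loc hS hu
      have b3 : ∀ t : ℝ, x + e * (u + t * (b / e)) = x + e * u + t * b := fun t => by
        field_simp; ring
      refine ⟨l, hl, b / e, div_ne_zero b0 e2, Set.ext fun v => ?_, fun t ht => ?_⟩
      · rw [b1]
        refine exists_congr fun t => ?_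
        simp only [← b3, add_right_inj, mul_right_inj' e2]
      · rw [mem_preimage, b3]
        exact b2 t ht)
    (fun u hu h1 h2 => by
      have h3 := infDist_le_dist_of_mem (x := x) (s := edges S) hu
      rw [hd, dist_comm, e4] at h3
      have h4 := Complex.sq_norm u
      rw [Complex.normSq_apply, h2] at h4
      nlinarith [abs_le.1 h1, sq_le_sq' (abs_le.1 h1).1 (abs_le.1 h1).2])
    (by
      rw [mem_preimage, sub_add_cancel, he, div_mul_cancel₀ _ (by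
        rw [← norm_pos_iff, e0]; linarith), add_sub_cancel]
      exact hy) (n := n)
    (by
      refine le_trans (encard_le_encard ?_) ((h.lines (x + e * ⟨0, d + 1⟩)).trans
        (by exact_mod_cast Nat.le_succ _))
      rintro l ⟨hl, s, hs, h1⟩
      refine ⟨hl, _, h1, ?_⟩
      rw [e3, dist_eq_norm]
      refine (Complex.norm_le_abs_re_add_abs_im _).trans ?_
      simp only [Complex.sub_re, Complex.sub_im, sub_self, abs_zero, zero_add]
      exact abs_le.2 ⟨by linarith [hs.1], by linarith [hs.2]⟩)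
  obtain ⟨k, hk⟩ : ∃ k, ⌊√d / C⌋₊ = k + 1 := Nat.exists_eq_succ_of_ne_zero
    (Nat.floor_pos.2 ((one_le_div (by linarith)).2 (by nlinarith))).ne'
  have k2 := Nat.floor_le (show 0 ≤ √d / C by positivity)
  have k3 := Nat.lt_floor_add_one (√d / C)
  rw [hk, Nat.cast_succ] at k2 k3
  rw [le_div_iff₀ (by linarith)] at k2
  rw [div_lt_iff₀ (by linarith)] at k3
  obtain ⟨v, w, v1, w1, hvw⟩ := h.seg hl hz1 hz2 (k := k) (by
    rw [e3]
    refine le_trans ?_ a1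
    rw [le_div_iff₀ (by positivity)]
    rw [hC'] at k2
    linarith)
  have hs : ∀ u ∈ segment ℝ (x + e * z1) (x + e * z2), u ∈ edges S ∧
      dist u x ≤ (2 * (6 * (M + 1) * n * (k + 2)) ^ 2 + 1 : ℕ) := by
    rintro u ⟨a, b, ha, hb, hab, rfl⟩
    have b1 : a • (x + e * z1) + b • (x + e * z2) = x + e * (a • z1 + b • z2) := by
      obtain rfl : a = 1 - b := by linarith
      simp only [Complex.real_smul]
      push_cast
      ring
    have b2 := a3 _ ⟨a, b, ha, hb, hab, rfl⟩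
    rw [b1, e4, Nat.cast_add, Nat.cast_mul, Nat.cast_pow, Nat.cast_mul, ← hC]
    refine ⟨a2 ⟨a, b, ha, hb, hab, rfl⟩, ?_⟩
    rw [abs_of_pos (by linarith)] at b2
    push_cast
    nlinarith
  refine ⟨k, ?_, v, w, (hs _ v1).2, (hs _ w1).2, hvw, fun u hu => S0 u (mem_of_edges
    (hs _ ((convex_segment _ _).segment_subset v1 w1 hu)).1)⟩
  have : (k0 : ℝ) < k + 1 := by nlinarith
  exact_mod_cast Nat.lt_succ_iff.1 (by exact_mod_cast this)

end Pool.Agent.MP_38c1f8_pr.Ln
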