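import Mathlib
import Pool.Agent.MP_38c1f8_pr.Ln.Geo

set_option autoImplicit false

open Set Metric

namespace Pool.Agent.MP_38c1f8_pr.Ln

variable {L : Set (Set ℂ)} {M : ℕ}

lemma open_mem (z d : ℂ) {s t : ℝ} (h1 : 0 < s) (h2 : s < t) :
    z + s * d ∈ openSegment ℝ z (z + t * d) := by
  have ht : 0 < t := h1.trans h2
  refine ⟨1 - s / t, s / t, sub_pos.2 ((div_lt_one ht).2 h2), by positivity, by ring, ?_⟩
  have : (t : ℂ) ≠ 0 := by exact_mod_cast ht.ne'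
  simp only [Complex.real_smul]
  push_cast
  field_simp
  ring

lemma nbr_uniq {z u v : crossings L} (hu : (lineGraph L).Adj z u) (hv : (lineGraph L).Adj z v)
    {d : ℂ} {s t : ℝ} (s0 : 0 < s) (t0 : 0 < t) (e1 : (u : ℂ) = z + s * d)
    (e2 : (v : ℂ) = z + t * d) : u = v := by
  rcases lt_trichotomy s t with h | h | h
  · exact absurd (e1 ▸ e2 ▸ open_mem _ d s0 h) ((adj_iff.1 hv).2.2 _ u.2)
  · exact Subtype.ext (by rw [e1, e2, h])
  · exact absurd (e1 ▸ e2 ▸ open_mem _ d t0 h) ((adj_iff.1 hu).2.2 _ v.2)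

lemma Arr.pair (h : Arr L M) {l : Set ℂ} (hl : l ∈ L) {z : crossings L} (hz : (z : ℂ) ∈ l) :
    ((lineGraph L).neighborSet z ∩ {u | (u : ℂ) ∈ l}).encard = 2 := by
  obtain ⟨d, d0, e⟩ := (h.line l hl).rebase hz
  have e' : l = range fun t : ℝ => (z : ℂ) + t * -d := by
    rw [e, ← range_scale z d (s := -1) (by norm_num)]; simp
  obtain ⟨a, a0, v, v1, v2⟩ := h.nbr hl d0 e
  obtain ⟨b, b0, w, w1, w2⟩ := h.nbr hl (neg_ne_zero.2 d0) e'
  refine encard_eq_two.2 ⟨v, w, fun hvw => ?_, Subset.antisymm ?_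
    (pair_subset ⟨v2, e ▸ ⟨a, v1.symm⟩⟩ ⟨w2, e' ▸ ⟨b, w1.symm⟩⟩)⟩
  · rw [hvw, w1] at v1
    have h1 : ((a + b : ℝ) : ℂ) * d = 0 := by push_cast; linear_combination -v1
    have h2 : a + b = 0 := by exact_mod_cast (mul_eq_zero.1 h1).resolve_right d0
    linarith
  · rintro u ⟨u1, u2⟩
    obtain ⟨s, hs⟩ : (u : ℂ) ∈ range fun t : ℝ => (z : ℂ) + t * d := e ▸ u2
    rcases lt_trichotomy s 0 with h1 | h1 | h1
    · exact Or.inr (nbr_uniq u1 w2 (neg_pos.2 h1) b0 (by rw [← hs]; simp) w1)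
    · exact absurd (Subtype.ext (by rw [← hs, h1]; simp)) ((lineGraph L).ne_of_adj u1)
    · exact Or.inl (nbr_uniq u1 v2 h1 a0 hs.symm v1)

lemma Arr.regular (h : Arr L M) (z : crossings L) : ((lineGraph L).neighborSet z).encard = 4 := by
  obtain ⟨l, hl, m, hm, hlm, z1, z2⟩ := z.2
  have h1 : (lineGraph L).neighborSet z = (lineGraph L).neighborSet z ∩ {u | (u : ℂ) ∈ l} ∪
      (lineGraph L).neighborSet z ∩ {u | (u : ℂ) ∈ m} := by
    refine Subset.antisymm (fun u hu => ?_) (union_subset inter_subset_left inter_subset_left)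
    obtain ⟨-, ⟨k, hk, k1, k2⟩, -⟩ := adj_iff.1 hu
    have h2 : ({l, m} : Set (Set ℂ)) = {l ∈ L | (z : ℂ) ∈ l} :=
      (toFinite _).eq_of_subset_of_encard_le (pair_subset ⟨hl, z1⟩ ⟨hm, z2⟩)
        (by rw [encard_pair hlm]; exact h.two z)
    rcases (h2 ▸ ⟨hk, k1⟩ : k ∈ ({l, m} : Set (Set ℂ))) with rfl | rfl
    exacts [Or.inl ⟨hu, k2⟩, Or.inr ⟨hu, k2⟩]
  rw [h1, encard_union_eq, h.pair hl z1, h.pair hm z2]
  · rfl
  refine disjoint_left.2 fun v v1 v2 => ?_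
  have hne : (z : ℂ) ≠ v := fun e => (lineGraph L).ne_of_adj v1.1 (Subtype.ext e)
  exact hlm (((h.line l hl).eq_range z1 v1.2 hne).trans ((h.line m hm).eq_range z2 v2.2 hne).symm)

lemma Arr.no_fortress (h : Arr L M) (S : Set (crossings L)) : ¬ IsFortress (lineGraph L) S := by
  rintro ⟨h1, h2, h3⟩
  obtain ⟨v, hv, h4⟩ := exists_max_image S (fun v => ‖(v : ℂ)‖) h1 h2
  obtain ⟨-, -, d, d0, -, h5⟩ := h.vertex_loc
    (fun v hv => encard_le_one_iff_subsingleton.1 (h3 v hv)) hv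
  have h6 : ∀ u ∈ edges S, ‖u‖ ≤ ‖(v : ℂ)‖ := fun u ⟨a, ha, b, hb, _, hu⟩ =>
    mem_closedBall_zero_iff.1 ((convex_closedBall 0 _).segment_subset
      (mem_closedBall_zero_iff.2 (h4 a ha)) (mem_closedBall_zero_iff.2 (h4 b hb)) hu)
  have a1 := h6 _ (h5 1 (by simp))
  have a2 := h6 _ (h5 (-1) (by simp))
  simp only [Complex.ofReal_one, one_mul, Complex.ofReal_neg, neg_mul, ← sub_eq_add_neg] at a1 a2
  have a3 := parallelogram_law_with_norm ℝ (v : ℂ) d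
  have a4 := norm_pos_iff.2 d0
  nlinarith [norm_nonneg ((v : ℂ) + d), norm_nonneg ((v : ℂ) - d)]

lemma Arr.walk_aux (h : Arr L M) {l : Set ℂ} (hl : l ∈ L) {w : crossings L} (hw : (w : ℂ) ∈ l)
    (n : ℕ) : ∀ v : crossings L, (v : ℂ) ∈ l →
      (crossings L ∩ segment ℝ (v : ℂ) w).encard ≤ n →
      ∃ p : (lineGraph L).Walk v w, p.length ≤ n := by
  induction n with
  | zero =>
    intro v _ h1
    exact absurd (encard_eq_zero.1 (nonpos_iff_eq_zero.1 h1))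
      (Set.Nonempty.ne_empty ⟨v, v.2, left_mem_segment _ _ _⟩)
  | succ n ih =>
    intro v hv h1
    by_cases hvw : v = w
    · subst hvw
      exact ⟨.nil, Nat.zero_le _⟩
    have hne : (v : ℂ) ≠ w := fun e => hvw (Subtype.ext e)
    have e := (h.line l hl).eq_range hv hw hne
    obtain ⟨t, t0, u, u1, u2⟩ := h.nbr hl (sub_ne_zero.2 hne.symm) e
    have t1 : t ≤ 1 := not_lt.1 fun t1 => (adj_iff.1 u2).2.2 _ w.2 (by
      simpa [u1] using open_mem v (w - v) one_pos t1)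
    have u3 : (u : ℂ) ∈ segment ℝ (v : ℂ) w := by simpa [u1] using seg_mem v (w - v) t0.le t1
    obtain ⟨p, hp⟩ := ih u (e ▸ ⟨t, u1.symm⟩) (by
      have h2 : insert (v : ℂ) (crossings L ∩ segment ℝ (u : ℂ) w)
          ⊆ crossings L ∩ segment ℝ (v : ℂ) w :=
        insert_subset ⟨v.2, left_mem_segment _ _ _⟩ (inter_subset_inter_right _
          ((convex_segment _ _).segment_subset u3 (right_mem_segment _ _ _)))
      have h3 := (encard_le_encard h2).trans h1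
      rw [encard_insert_of_notMem, Nat.cast_succ] at h3
      · exact (ENat.add_le_add_iff_right ENat.one_ne_top).1 h3
      · rintro ⟨-, h4⟩
        have h5 := dist_add_dist_of_mem_segment h4
        have h6 := dist_add_dist_of_mem_segment u3
        have h7 : 0 < dist (v : ℂ) u := dist_pos.2 fun e => u2.ne (Subtype.ext e)
        linarith [dist_comm (v : ℂ) u])
    exact ⟨.cons u2 p, Nat.succ_le_succ hp⟩

lemma Arr.walk (h : Arr L M) {l : Set ℂ} (hl : l ∈ L) {v w : crossings L} (hv : (v : ℂ) ∈ l)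
    (hw : (w : ℂ) ∈ l) :
    ∃ p : (lineGraph L).Walk v w, (p.length : ℝ) ≤ M * (dist (v : ℂ) w + 3) := by
  set N := ⌈dist (v : ℂ) w⌉₊ + 1 with hN
  have N0 : (0 : ℝ) < N := by positivity
  have N1 : dist (v : ℂ) w ≤ N := (Nat.le_ceil _).trans (Nat.cast_le.2 (Nat.le_succ _))
  have h1 : crossings L ∩ segment ℝ (v : ℂ) w ⊆ ⋃ j ∈ Finset.range (N + 1),
      crossings L ∩ closedBall ((v : ℂ) + ((j : ℝ) / N : ℝ) * (w - v)) 1 := by
    rintro u ⟨u1, u2⟩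
    rw [segment_eq_image'] at u2
    obtain ⟨s, ⟨s0, s1⟩, rfl⟩ := u2
    have a1 := Nat.floor_le (show 0 ≤ s * N by positivity)
    have a2 := Nat.lt_floor_add_one (s * N)
    refine mem_biUnion (x := ⌊s * N⌋₊) (Finset.mem_range.2 (Nat.lt_succ_of_le
      (Nat.floor_le_of_le (by nlinarith)))) ⟨u1, ?_⟩
    rw [mem_closedBall, dist_add_left, Complex.real_smul, dist_eq_norm, ← sub_mul,
      ← Complex.ofReal_sub, norm_mul, Complex.norm_real, Real.norm_of_nonneg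
        (sub_nonneg.2 ((div_le_iff₀ N0).2 a1)), ← dist_eq_norm']
    have a3 : (s - ⌊s * N⌋₊ / N) * N ≤ 1 := by rw [sub_mul, div_mul_cancel₀ _ N0.ne']; linarith
    exact (mul_le_mul_of_nonneg_left N1 (sub_nonneg.2 ((div_le_iff₀ N0).2 a1))).trans a3
  obtain ⟨p, hp⟩ := h.walk_aux hl hw ((N + 1) * M) v hv ((encard_le_encard h1).trans
    ((Finset.set_encard_biUnion_le _ _).trans ((Finset.sum_le_card_nsmul _ _ _
      fun _ _ => h.few _).trans (by simp))))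
  refine ⟨p, (Nat.cast_le.2 hp).trans ?_⟩
  have := (Nat.ceil_lt_add_one (dist_nonneg (x := (v : ℂ)) (y := w))).le
  rw [hN]
  push_cast
  nlinarith [(Nat.cast_nonneg M : (0 : ℝ) ≤ M)]

/-- The determinant of two plane vectors. -/
def cr (a b : ℂ) : ℝ := a.re * b.im - a.im * b.re

lemma sq_unit {e : ℂ} (he : ‖e‖ = 1) : e.re ^ 2 + e.im ^ 2 = 1 := by
  have := Complex.sq_norm e
  rw [he, Complex.normSq_apply] at this
  linarith

lemma abs_cr_le {e : ℂ} (he : ‖e‖ = 1) (b : ℂ) : |cr e b| ≤ ‖b‖ := by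
  have := Complex.abs_im_le_norm ((starRingEnd ℂ) e * b)
  rw [norm_mul, Complex.norm_conj, he, one_mul] at this
  convert this using 2
  simp [cr]
  ring

lemma foot {e : ℂ} (he : ‖e‖ = 1) (a z : ℂ) :
    ∃ s : ℝ, z = a + s * e + cr e (z - a) * (Complex.I * e) := by
  have h1 := sq_unit he
  refine ⟨e.re * (z - a).re + e.im * (z - a).im, Complex.ext ?_ ?_⟩
  · simp [cr]
    linear_combination (a.re - z.re) * h1
  · simp [cr]
    linear_combination (a.im - z.im) * h1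

lemma foot_dist {e : ℂ} (he : ‖e‖ = 1) (a z : ℂ) :
    ∃ s : ℝ, dist z (a + s * e) = |cr e (z - a)| := by
  obtain ⟨s, hs⟩ := foot he a z
  refine ⟨s, ?_⟩
  conv_lhs => rw [hs]
  simp [he]

lemma IsLine.unit {l : Set ℂ} (h : IsLine l) : ∃ e : ℂ, ‖e‖ = 1 ∧
    ∀ z ∈ l, l = range fun t : ℝ => z + t * e := by
  obtain ⟨a, d, d0, rfl⟩ := h
  have hd := norm_pos_iff.2 d0
  refine ⟨(‖d‖⁻¹ : ℝ) * d, by simp [d0], ?_⟩
  rintro _ ⟨s, rfl⟩
  rw [range_scale _ _ (inv_pos.2 hd).ne']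
  refine Set.ext fun u => ⟨?_, ?_⟩
  · rintro ⟨t, rfl⟩
    exact ⟨t - s, by push_cast; ring⟩
  · rintro ⟨t, rfl⟩
    exact ⟨s + t, by push_cast; ring⟩

lemma Arr.trans (h : Arr L M) {E : Set ℂ → ℂ} (hE : ∀ l ∈ L, ‖E l‖ = 1 ∧
    ∀ z ∈ l, l = range fun t : ℝ => z + t * E l) : ∃ T : ℝ, 2 ≤ T ∧ ∀ l ∈ L, ∀ a ∈ l,
      ∃ m ∈ L, ∃ u ∈ crossings L, u ∈ l ∧ u ∈ m ∧ dist a u ≤ T ∧ 2 ≤ T * |cr (E m) (E l)| := by
  set n := M * (2 * (M + 2) + 1) ^ 2 * 2 + 1 with hn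
  have hM : (0 : ℝ) ≤ M := by positivity
  have n0 : (0 : ℝ) ≤ n := by positivity
  refine ⟨3 * (M + 1) * (n + 1), by nlinarith, fun l hl a ha => ?_⟩
  set T : ℝ := 3 * (M + 1) * (n + 1) with hT
  have T0 : 0 ≤ T := by positivity
  by_contra hc
  have e := (hE l hl).2 a ha
  have h0 : dist a (a + T * E l) = T := by simp [(hE l hl).1, abs_of_nonneg T0]
  obtain ⟨v, w, v1, w1, h1⟩ := h.seg hl ha (z2 := a + T * E l) (e.ge ⟨T, rfl⟩) (k := n) h0.ge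
  have h2 : ∀ u : crossings L, ∃ m ∈ L, m ≠ l ∧ (u : ℂ) ∈ m := fun u => by
    obtain ⟨k, hk, m, hm, hkm, u1, u2⟩ := u.2
    by_cases h3 : k = l
    · exact ⟨m, hm, fun h4 => hkm (h3.trans h4.symm), u2⟩
    · exact ⟨k, hk, h3, u1⟩
  choose m m1 m2 m3 using h2
  have h3 : ∀ u : crossings L, (u : ℂ) ∈ segment ℝ (v : ℂ) w →
      ∃ s : ℝ, 0 ≤ s ∧ s ≤ T ∧ (u : ℂ) = a + s * E l := fun u hu => by
    have h4 := (convex_segment _ _).segment_subset v1 w1 hu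
    rw [segment_eq_image'] at h4
    obtain ⟨s, ⟨s0, s1⟩, hs⟩ := h4
    exact ⟨s * T, by positivity, by nlinarith, by rw [← hs]; simp [mul_assoc]⟩
  have h4 := (h1.trans (encard_le_encard_of_injOn (f := m) (fun u hu => ?_)
    fun u hu u' hu' huu => ?_)).trans (h.lines a)
  · exact absurd (Nat.cast_le.1 h4) (Nat.not_succ_le_self _)
  · obtain ⟨s, s0, s1, hs⟩ := h3 u hu
    obtain ⟨r, hr⟩ := foot_dist (hE _ (m1 u)).1 u a
    refine ⟨m1 u, u + r * E (m u), ((hE _ (m1 u)).2 _ (m3 u)).ge ⟨r, rfl⟩, ?_⟩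
    have h5 : T * |cr (E (m u)) (E l)| < 2 := not_le.1 fun h5 => hc ⟨m u, m1 u, u, u.2,
      e.ge ⟨s, hs.symm⟩, m3 u, by rw [hs]; simpa [(hE l hl).1, abs_of_nonneg s0] using s1, h5⟩
    have h6 : cr (E (m u)) (a - u) = -s * cr (E (m u)) (E l) := by rw [hs]; simp [cr]; ring
    rw [dist_comm, hr, h6, abs_mul, abs_neg, abs_of_nonneg s0]
    nlinarith [abs_nonneg (cr (E (m u)) (E l))]
  · by_contra hne
    have h5 : (u : ℂ) ≠ u' := fun e => hne (Subtype.ext e)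
    obtain ⟨s, -, -, hs⟩ := h3 u hu
    obtain ⟨s', -, -, hs'⟩ := h3 u' hu'
    exact m2 u (((h.line _ (m1 u)).eq_range (m3 u) (huu ▸ m3 u') h5).trans
      ((h.line l hl).eq_range (e.ge ⟨s, hs.symm⟩) (e.ge ⟨s', hs'.symm⟩) h5).symm)

lemma meet {e f : ℂ} (he : ‖e‖ = 1) (hf : ‖f‖ = 1) {T : ℝ} (hT : 1 ≤ T * |cr e f|) (a b : ℂ) :
    ∃ s t : ℝ, a + s * e = b + t * f ∧ |s| ≤ T * dist a b ∧ |t| ≤ T * dist a b := by
  have h0 : cr e f ≠ 0 := by rintro h; rw [h] at hT; norm_num at hT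
  have h1 := abs_pos.2 h0
  have h2 : ∀ x : ℝ, |x| ≤ dist a b → |x / cr e f| ≤ T * dist a b := fun x hx => by
    rw [abs_div, div_le_iff₀ h1]
    nlinarith [dist_nonneg (x := a) (y := b)]
  refine ⟨cr f (a - b) / cr e f, cr e (a - b) / cr e f, ?_, 
    h2 _ ((abs_cr_le hf _).trans_eq (dist_eq_norm a b).symm),
    h2 _ ((abs_cr_le he _).trans_eq (dist_eq_norm a b).symm)⟩
  have h3 : ((cr e f : ℝ) : ℂ) ≠ 0 := by exact_mod_cast h0
  push_cast
  field_simp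
  apply Complex.ext <;> simp [cr] <;> ring

lemma Arr.walks (h : Arr L M) : ∃ A : ℝ, 1 ≤ A ∧ ∀ v w : crossings L,
    ∃ p : (lineGraph L).Walk v w, (p.length : ℝ) ≤ A * (dist (v : ℂ) w + 1) := by
  choose! E hE using fun l hl => (h.line l hl).unit
  obtain ⟨T, T2, hT⟩ := h.trans fun l hl => ⟨(hE l hl).1, (hE l hl).2⟩
  have hM : (0 : ℝ) ≤ M := by positivity
  refine ⟨M * (2 * T ^ 2 + T + 9) + 1, le_add_of_nonneg_left (by positivity), fun v w => ?_⟩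
  obtain ⟨l, hl, -, -, -, v1, -⟩ := v.2
  obtain ⟨m, hm, -, -, -, w1, -⟩ := w.2
  obtain ⟨n, hn, u, u1, u2, u3, u4, u5⟩ := hT l hl v v1
  obtain ⟨k, hk, k1, k2⟩ : ∃ k ∈ L, u ∈ k ∧ 1 ≤ T * |cr (E k) (E m)| := by
    have a1 : (cr (E n) (E l) : ℂ) * E m = cr (E n) (E m) * E l - cr (E l) (E m) * E n := by
      apply Complex.ext <;> simp [cr] <;> ring
    have a2 := norm_sub_le ((cr (E n) (E m) : ℂ) * E l) (cr (E l) (E m) * E n)
    rw [← a1] at a2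
    simp only [norm_mul, (hE _ hl).1, (hE _ hm).1, (hE _ hn).1, mul_one, Complex.norm_real,
      Real.norm_eq_abs] at a2
    by_cases h1 : 1 ≤ T * |cr (E l) (E m)|
    · exact ⟨l, hl, u2, h1⟩
    · exact ⟨n, hn, u3, by nlinarith⟩
  have d0 := dist_nonneg (x := u) (y := w)
  obtain ⟨x, x1, x2, x3, x4, x5⟩ : ∃ x ∈ crossings L, x ∈ k ∧ x ∈ m ∧ dist u x ≤ T * dist u w ∧
      dist x w ≤ T * dist u w := by
    by_cases hkm : k = m
    · exact ⟨u, u1, k1, hkm ▸ k1, by rw [dist_self]; positivity, by nlinarith⟩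
    obtain ⟨s, t, a1, a2, a3⟩ := meet (hE _ hk).1 (hE _ hm).1 k2 u w
    have a4 : u + s * E k ∈ k := ((hE _ hk).2 u k1).ge ⟨s, rfl⟩
    have a5 : u + s * E k ∈ m := by rw [a1]; exact ((hE _ hm).2 w w1).ge ⟨t, rfl⟩
    exact ⟨_, ⟨k, hk, m, hm, hkm, a4, a5⟩, a4, a5, by simpa [(hE _ hk).1] using a2,
      by rw [a1]; simpa [(hE _ hm).1] using a3⟩
  obtain ⟨p1, h1⟩ := h.walk hl (v := v) (w := ⟨u, u1⟩) v1 u2
  obtain ⟨p2, h2⟩ := h.walk hk (v := ⟨u, u1⟩) (w := ⟨x, x1⟩) k1 x2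
  obtain ⟨p3, h3⟩ := h.walk hm (v := ⟨x, x1⟩) (w := w) x3 w1
  refine ⟨p1.append (p2.append p3), ?_⟩
  simp only [SimpleGraph.Walk.length_append] at h1 h2 h3 ⊢
  push_cast
  have d1 := dist_nonneg (x := (v : ℂ)) (y := w)
  have d2 : dist u w ≤ T + dist (v : ℂ) w := by linarith [dist_triangle_left u w v]
  have d3 : dist (v : ℂ) u + dist u x + dist x w + 9 ≤ (2 * T ^ 2 + T + 9) * (dist (v : ℂ) w + 1) := by
    nlinarith [mul_le_mul_of_nonneg_left d2 (show 0 ≤ T by linarith), mul_nonneg d1 (sq_nonneg T),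
      mul_nonneg d1 (show 0 ≤ T - 2 by linarith), mul_nonneg (mul_nonneg d1 (show 0 ≤ T - 2 by
        linarith)) (show 0 ≤ T by linarith)]
  nlinarith [mul_le_mul_of_nonneg_left d3 hM]

lemma Arr.net (h : Arr L M) (hL : L.Nonempty) : ∃ R : ℝ, 0 ≤ R ∧ ∀ z : ℂ,
    ∃ v : crossings L, dist z v ≤ R := by
  choose! E hE using fun l hl => (h.line l hl).unit
  obtain ⟨T, T2, hT⟩ := h.trans fun l hl => ⟨(hE l hl).1, (hE l hl).2⟩
  refine ⟨T ^ 2 * (1 + T) + 1 + M, by positivity, fun z => ?_⟩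
  obtain ⟨a, ⟨l, hl, ha⟩, h1⟩ := (infDist_lt_iff (x := z) (s := ⋃₀ L) (by
    obtain ⟨l, hl⟩ := hL
    obtain ⟨a, d, -, e⟩ := h.line l hl
    exact ⟨_, l, hl, e.ge ⟨0, rfl⟩⟩)).1 (lt_add_one _)
  obtain ⟨v, v1, -, v2⟩ := h.dense l hl a ha
  refine ⟨⟨v, v1⟩, (dist_triangle z a v).trans (add_le_add (h1.le.trans ?_) v2)⟩
  obtain ⟨s, hs⟩ := foot (hE l hl).1 a z
  obtain ⟨m, hm, u, -, -, u1, u2, u3⟩ := hT l hl (a + s * E l) (((hE l hl).2 a ha).ge ⟨s, rfl⟩)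
  obtain ⟨r, hr⟩ := foot_dist (hE m hm).1 u z
  have a1 := infDist_le_dist_of_mem (x := z) (s := ⋃₀ L) (y := u + r * E m)
    ⟨m, hm, ((hE m hm).2 u u1).ge ⟨r, rfl⟩⟩
  have a2 := abs_cr_le (hE l hl).1 (z - a)
  have a3 := abs_cr_le (hE m hm).1 (a + s * E l - u)
  rw [← dist_eq_norm] at a2 a3
  set β := cr (E l) (z - a) with hβ
  set c := cr (E m) (Complex.I * E l) with hc
  have a4 : cr (E m) (z - u) = β * c + cr (E m) (a + s * E l - u) := by
    conv_lhs => rw [hs]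
    simp [hc, cr]
    ring
  have a5 : c ^ 2 + cr (E m) (E l) ^ 2 = 1 := by
    have b1 := sq_unit (hE l hl).1
    have b2 := sq_unit (hE m hm).1
    simp [hc, cr]
    linear_combination ((E l).re ^ 2 + (E l).im ^ 2) * b2 + b1
  have a6 : 4 ≤ T ^ 2 * cr (E m) (E l) ^ 2 := by
    rw [← sq_abs (cr _ _), ← mul_pow]; nlinarith
  have a7 : T ^ 2 * |c| ≤ T ^ 2 - 2 := by
    nlinarith [sq_abs c, mul_nonneg (sq_nonneg T) (sq_nonneg (|c| - 1))]
  have a8 := abs_add_le (β * c) (cr (E m) (a + s * E l - u))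
  rw [← a4, ← hr, abs_mul] at a8
  set d := infDist z (⋃₀ L)
  have d0 : 0 ≤ d := infDist_nonneg
  have a9 : d ≤ (d + 1) * |c| + T := by
    nlinarith [mul_le_mul_of_nonneg_right (a2.trans h1.le) (abs_nonneg c)]
  nlinarith [mul_le_mul_of_nonneg_left a9 (sq_nonneg T),
    mul_le_mul_of_nonneg_left a7 (show 0 ≤ d + 1 by linarith)]

lemma grid_walk (n : ℕ) : ∀ x y : ℤ × ℤ, |x.1 - y.1| + |x.2 - y.2| ≤ n →
    ∃ p : squareGrid.Walk x y, p.length ≤ n := by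
  induction n with
  | zero =>
    intro x y h
    obtain rfl : x = y := Prod.ext (by grind) (by grind)
    exact ⟨.nil, le_rfl⟩
  | succ n ih =>
    intro x y h
    by_cases hxy : x = y
    · subst hxy
      exact ⟨.nil, Nat.zero_le _⟩
    obtain ⟨z, z1, z2⟩ : ∃ z : ℤ × ℤ, |x.1 - z.1| + |x.2 - z.2| = 1 ∧
        |z.1 - y.1| + |z.2 - y.2| ≤ n := by
      rcases lt_trichotomy x.1 y.1 with h1 | h1 | h1
      · exact ⟨(x.1 + 1, x.2), by grind, by grind⟩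
      · rcases lt_trichotomy x.2 y.2 with h2 | h2 | h2
        · exact ⟨(x.1, x.2 + 1), by grind, by grind⟩
        · exact absurd (Prod.ext h1 h2) hxy
        · exact ⟨(x.1, x.2 - 1), by grind, by grind⟩
      · exact ⟨(x.1 - 1, x.2), by grind, by grind⟩
    obtain ⟨p, hp⟩ := ih z y z2
    have h1 : squareGrid.Adj x z :=
      (SimpleGraph.fromRel_adj _ _ _).2 ⟨by rintro rfl; simp at z1, Or.inl z1⟩
    exact ⟨.cons h1 p, Nat.succ_le_succ hp⟩

lemma grid_low {x y : ℤ × ℤ} (p : squareGrid.Walk x y) :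
    |x.1 - y.1| + |x.2 - y.2| ≤ p.length := by
  induction p with
  | nil => simp
  | cons h p ih =>
    have h1 := ((SimpleGraph.fromRel_adj _ _ _).1 h).2
    rw [SimpleGraph.Walk.length_cons]
    grind

lemma grid_dist (z w : ℂ) :
    dist z w - 2 ≤ squareGrid.dist (⌊z.re⌋, ⌊z.im⌋) (⌊w.re⌋, ⌊w.im⌋) ∧
    (squareGrid.dist (⌊z.re⌋, ⌊z.im⌋) (⌊w.re⌋, ⌊w.im⌋) : ℝ) ≤ 2 * dist z w + 2 := by
  obtain ⟨n, hn⟩ := Int.eq_ofNat_of_zero_le
    (show 0 ≤ |⌊z.re⌋ - ⌊w.re⌋| + |⌊z.im⌋ - ⌊w.im⌋| by positivity)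
  obtain ⟨p, hp⟩ := grid_walk n (⌊z.re⌋, ⌊z.im⌋) (⌊w.re⌋, ⌊w.im⌋) hn.le
  obtain ⟨q, hq⟩ := p.reachable.exists_walk_length_eq_dist
  have h1 := grid_low q
  rw [hq, hn] at h1
  rw [le_antisymm ((SimpleGraph.dist_le p).trans hp) (Nat.cast_le.1 h1)]
  have h2 : |(⌊z.re⌋ : ℝ) - ⌊w.re⌋| + |(⌊z.im⌋ : ℝ) - ⌊w.im⌋| = n := by exact_mod_cast hn
  have h3 : ∀ a b : ℝ, |a - b| ≤ |(⌊a⌋ : ℝ) - ⌊b⌋| + 1 ∧ |(⌊a⌋ : ℝ) - ⌊b⌋| ≤ |a - b| + 1 := by
    intro a b
    have := Int.floor_le a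
    have := Int.floor_le b
    have := Int.lt_floor_add_one a
    have := Int.lt_floor_add_one b
    grind
  have h4 := Complex.norm_le_abs_re_add_abs_im (z - w)
  have h5 := Complex.abs_re_le_norm (z - w)
  have h6 := Complex.abs_im_le_norm (z - w)
  rw [Complex.sub_re] at h4 h5
  rw [Complex.sub_im] at h4 h6
  rw [dist_eq_norm]
  constructor <;> linarith [h3 z.re w.re, h3 z.im w.im]

lemma Arr.walk_low (h : Arr L M) {v w : crossings L} (p : (lineGraph L).Walk v w) :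
    dist (v : ℂ) w ≤ (2 * M + 1) * p.length := by
  induction p with
  | nil => simp
  | @cons a b c hab p ih =>
    rw [SimpleGraph.Walk.length_cons]
    push_cast
    linarith [h.adj_dist hab, dist_triangle (a : ℂ) b c]

lemma Arr.cls (h : Arr L M) (hL : L.Nonempty) : Infinite (crossings L) ∧
    (lineGraph L).Connected ∧ IsQuasiIsometric (lineGraph L) squareGrid := by
  obtain ⟨A, A1, hA⟩ := h.walks
  obtain ⟨R, R0, hR⟩ := h.net hL
  have hM : (0 : ℝ) ≤ M := by positivity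
  refine ⟨?_, ?_, fun v => (⌊(v : ℂ).re⌋, ⌊(v : ℂ).im⌋), A + (4 * M + 2), 2 * R + 3, by linarith,
    by linarith, fun v w => ?_, fun x => ?_⟩
  · refine not_finite_iff_infinite.1 fun hf => ?_
    obtain ⟨B, hB⟩ := (toFinite (crossings L)).isBounded.subset_closedBall 0
    obtain ⟨v, hv⟩ := hR (|B| + R + 1 : ℝ)
    have h1 := dist_triangle ((|B| + R + 1 : ℝ) : ℂ) v 0
    rw [dist_zero_right, Complex.norm_real, Real.norm_of_nonneg (by positivity)] at h1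
    linarith [mem_closedBall.1 (hB v.2), le_abs_self B]
  · obtain ⟨v, -⟩ := hR 0
    have : Nonempty (crossings L) := ⟨v⟩
    exact ⟨fun v w => (hA v w).elim fun p _ => ⟨p⟩⟩
  · obtain ⟨p, hp⟩ := hA v w
    obtain ⟨q, hq⟩ := p.reachable.exists_walk_length_eq_dist
    have h1 := h.walk_low q
    have h2 : ((lineGraph L).dist v w : ℝ) ≤ p.length := Nat.cast_le.2 (SimpleGraph.dist_le p)
    obtain ⟨h3, h4⟩ := grid_dist v w
    have h5 := dist_nonneg (x := (v : ℂ)) (y := w)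
    have h6 : (0 : ℝ) ≤ (lineGraph L).dist v w := by positivity
    rw [hq] at h1
    refine ⟨?_, by nlinarith⟩
    have h7 : ((lineGraph L).dist v w : ℝ) / (A + (4 * M + 2)) ≤ dist (v : ℂ) w + 1 := by
      rw [div_le_iff₀ (by linarith)]
      nlinarith
    linarith
  · obtain ⟨v, hv⟩ := hR ⟨x.1, x.2⟩
    have h1 := (grid_dist ⟨x.1, x.2⟩ v).2
    simp only [Int.floor_intCast] at h1
    exact ⟨v, by linarith⟩

end Pool.Agent.MP_38c1f8_pr.Ln
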