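import Mathlib
import Pool.Agent.MP_38c1f8_pr.Ln.Geo

set_option autoImplicit false

open Set Metric MeasureTheory ProbabilityTheory Filter Topology

namespace Pool.Agent.MP_38c1f8_pr.Ln

/-- The product Bernoulli measure. -/
noncomputable abbrev ber (V : Type) (p : unitInterval) : Measure (V → Bool) :=
  Measure.infinitePi (fun _ : V => bernoulliMeasure true false p)

/-- The event depends only on the sites of `S`. -/
def Dep {V : Type} (S : Finset V) (E : Set (V → Bool)) : Prop :=
  ∀ c c' : V → Bool, (∀ v ∈ S, c v = c' v) → c ∈ E → c' ∈ E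

/-- All sites of `S` have the value `b`. -/
def Cy {V : Type} (S : Finset V) (b : Bool) : Set (V → Bool) := {c | ∀ v ∈ S, c v = b}

section
variable {V : Type} {S T : Finset V} {E F : Set (V → Bool)}

lemma Dep.eq (h : Dep S E) : E = S.restrict ⁻¹' (S.restrict '' E) :=
  Subset.antisymm (subset_preimage_image _ _) fun c ⟨c', h1, h2⟩ =>
    h c' c (fun v hv => congrFun h2 ⟨v, hv⟩) h1

lemma Dep.meas (h : Dep S E) : MeasurableSet E :=
  h.eq ▸ S.measurable_restrict (toFinite _).measurableSet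

lemma Dep.mono (h : Dep S E) (hST : S ⊆ T) : Dep T E := fun c c' h1 =>
  h c c' fun v hv => h1 v (hST hv)

lemma Dep.compl (h : Dep S E) : Dep S Eᶜ := fun c c' h1 h2 h3 =>
  h2 (h c' c (fun v hv => (h1 v hv).symm) h3)

lemma dep_cy (S : Finset V) (b : Bool) : Dep S (Cy S b) := fun _ _ h1 h2 v hv =>
  (h1 v hv).symm.trans (h2 v hv)

lemma Dep.indep (hE : Dep S E) (hF : Dep T F) (h : Disjoint S T) (p : unitInterval) :
    (ber V p).real (E ∩ F) = (ber V p).real E * (ber V p).real F := by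
  have h1 := (iIndepFun_infinitePi (P := fun _ : V => bernoulliMeasure true false p)
    (X := fun _ => id) (fun _ => measurable_id)).indepFun_finset S T h
    (fun i => measurable_pi_apply i)
  have h2 := h1.measure_inter_preimage_eq_mul (S.restrict '' E) (T.restrict '' F)
    (toFinite _).measurableSet (toFinite _).measurableSet
  rw [hE.eq, hF.eq, measureReal_def, measureReal_def, measureReal_def, ← ENNReal.toReal_mul]
  exact congrArg ENNReal.toReal h2

lemma cy_real (S : Finset V) (b : Bool) (p : unitInterval) :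
    (ber V p).real (Cy S b) = (if b then (p : ℝ) else 1 - p) ^ S.card := by
  have : Cy S b = Set.pi S (fun _ => {b}) := by ext c; simp [Cy]
  rw [this, measureReal_def, Measure.infinitePi_pi _ (fun _ _ => measurableSet_singleton _),
    Finset.prod_const, ENNReal.toReal_pow]
  cases b
  · rw [bernoulliMeasure_apply_of_notMem_of_mem p (measurableSet_singleton _) (by simp) (by simp)]
    simp
  · rw [bernoulliMeasure_apply_of_mem_of_notMem p (measurableSet_singleton _) (by simp) (by simp)]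
    simp

end

variable {L : Set (Set ℂ)} {M : ℕ}

/-- The crossings in a closed disc. -/
noncomputable def Arr.bl (h : Arr L M) (x : ℂ) (R : ℝ) : Finset (crossings L) :=
  ((h.fin x R).preimage Subtype.val_injective.injOn).toFinset

lemma Arr.mem_bl (h : Arr L M) {x : ℂ} {R : ℝ} {v : crossings L} :
    v ∈ h.bl x R ↔ dist (v : ℂ) x ≤ R := by
  simp [Arr.bl]

lemma Arr.card_bl (h : Arr L M) (x : ℂ) (R : ℕ) : (h.bl x R).card ≤ M * (2 * R + 1) ^ 2 := by
  have h1 : ((h.bl x R : Finset (crossings L)) : Set (crossings L)).encard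
      ≤ (crossings L ∩ closedBall x R).encard :=
    encard_le_encard_of_injOn (f := Subtype.val) (fun v hv => ⟨v.2, h.mem_bl.1 hv⟩)
      Subtype.val_injective.injOn
  rw [encard_coe_eq_coe_finsetCard] at h1
  exact_mod_cast h1.trans (h.count x R)

lemma Arr.seg_bl (h : Arr L M) {x : ℂ} {R : ℝ} {u v w : crossings L} (hv : dist (v : ℂ) x ≤ R)
    (hw : dist (w : ℂ) x ≤ R) (hu : (u : ℂ) ∈ segment ℝ (v : ℂ) w) : u ∈ h.bl x R :=
  h.mem_bl.2 ((convex_closedBall x R).segment_subset hv hw hu)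

lemma Arr.dep_bad (h : Arr L M) (x : ℂ) (R : ℝ) (k : ℕ) : Dep (h.bl x R) (Bad L x R k) :=
  fun _ _ h1 ⟨v, w, hv, hw, h2, h3⟩ => ⟨v, w, hv, hw, h2, fun u hu =>
    (h1 u (h.seg_bl hv hw hu)).symm.trans (h3 u hu)⟩

lemma Arr.bad_le (h : Arr L M) (p : unitInterval) (A : Finset (crossings L)) (x : ℂ) (R k : ℕ) :
    (ber _ p).real (Cy A true ∩ Bad L x R k)
      ≤ (ber _ p).real (Cy A true) * ((M * (2 * R + 1) ^ 2) ^ 2 * (1 - p) ^ k) := by
  classical
  set T : crossings L × crossings L → Finset (crossings L) := fun q =>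
    (h.bl x R).filter fun u => (u : ℂ) ∈ segment ℝ (q.1 : ℂ) q.2 with hT
  have q0 : (0 : ℝ) ≤ 1 - p := unitInterval.one_minus_nonneg p
  have h1 : Cy A true ∩ Bad L x R k ⊆ ⋃ q ∈ (h.bl x R ×ˢ h.bl x R).filter (fun q => k ≤ (T q).card),
      Cy A true ∩ Cy (T q) false := by
    rintro c ⟨c1, v, w, hv, hw, h2, h3⟩
    refine mem_biUnion (x := (v, w)) (Finset.mem_filter.2 ⟨Finset.mem_product.2
      ⟨h.mem_bl.2 hv, h.mem_bl.2 hw⟩, ?_⟩) ⟨c1, fun u hu => h3 u (Finset.mem_filter.1 hu).2⟩
    have h4 := h2.trans (encard_le_encard (t := (T (v, w) : Set (crossings L))) fun u hu =>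
      Finset.mem_filter.2 ⟨h.seg_bl hv hw hu, hu⟩)
    rw [encard_coe_eq_coe_finsetCard] at h4
    exact_mod_cast h4
  refine (measureReal_mono h1 (measure_ne_top _ _)).trans
    ((measureReal_biUnion_finset_le _ _).trans
    ((Finset.sum_le_card_nsmul _ _ ((ber _ p).real (Cy A true) * (1 - p) ^ k)
      fun q hq => ?_).trans ?_))
  · by_cases hd : Disjoint A (T q)
    · rw [(dep_cy _ _).indep (dep_cy _ _) hd, cy_real (T q)]
      exact mul_le_mul_of_nonneg_left (pow_le_pow_of_le_one q0 (unitInterval.one_minus_le_one p)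
        (Finset.mem_filter.1 hq).2) measureReal_nonneg
    · obtain ⟨u, u1, u2⟩ := Finset.not_disjoint_iff.1 hd
      have : Cy A true ∩ Cy (T q) false = ∅ :=
        eq_empty_of_forall_notMem fun c hc => by simpa [hc.1 u u1] using hc.2 u u2
      rw [this, measureReal_empty]
      exact mul_nonneg measureReal_nonneg (pow_nonneg q0 _)
  · rw [nsmul_eq_mul, mul_left_comm]
    refine mul_le_mul_of_nonneg_left (mul_le_mul_of_nonneg_right ?_ (pow_nonneg q0 _))
      measureReal_nonneg
    have h2 := (Finset.card_filter_le (h.bl x R ×ˢ h.bl x R) fun q => k ≤ (T q).card).trans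
      ((Finset.card_product _ _).trans_le (Nat.mul_le_mul (h.card_bl x R) (h.card_bl x R)))
    rw [sq]
    exact_mod_cast h2

lemma Arr.main (h : Arr L M) {p : unitInterval} (p0 : 0 < p) (p1 : p < 1) :
    ber _ p (invasionSet (lineGraph L)) = 1 := by
  classical
  obtain ⟨C, hC⟩ := h.det
  set μ := ber (crossings L) p with hμ
  have q0 : (0 : ℝ) < 1 - p := sub_pos.2 (by exact_mod_cast p1)
  have q1 : (0 : ℝ) < p := by exact_mod_cast p0
  set R : ℕ → ℕ := fun k => 2 * (C * (k + 2)) ^ 2 + 1 with hR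
  set b : ℕ → ℝ := fun k => (M * (2 * R k + 1) ^ 2) ^ 2 * (1 - p) ^ k with hb
  have b0 : ∀ k, 0 ≤ b k := fun k => by positivity
  have hs : Summable b := by
    have h1 := ((summable_nat_add_iff 2).2 (summable_pow_mul_geometric_of_norm_lt_one 8
      (r := (1 - p : ℝ)) (by rw [Real.norm_of_nonneg q0.le]; linarith))).mul_left
      (((M : ℝ) * (4 * C ^ 2 + 3) ^ 2) ^ 2 / (1 - p) ^ 2)
    refine h1.of_nonneg_of_le b0 fun k => ?_
    have h2 : (2 * R k + 1 : ℝ) ≤ (4 * C ^ 2 + 3) * (k + 2) ^ 2 := by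
      simp only [hR]
      push_cast
      nlinarith [(Nat.cast_nonneg k : (0 : ℝ) ≤ k)]
    calc b k ≤ (M * ((4 * C ^ 2 + 3) * (k + 2) ^ 2) ^ 2) ^ 2 * (1 - p) ^ k := by
          simp only [hb]; gcongr
      _ = _ := by push_cast; field_simp; ring
  have ht : ∀ (A : Finset (crossings L)) (x : ℂ) (k : ℕ),
      μ.real (Cy A true ∩ ⋃ i, Bad L x (R (i + k)) (i + k))
        ≤ μ.real (Cy A true) * ∑' i, b (i + k) := by
    intro A x k
    have h1 := ((summable_nat_add_iff k).2 hs).mul_left (μ.real (Cy A true))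
    rw [inter_iUnion, ← tsum_mul_left]
    refine ENNReal.toReal_le_of_le_ofReal (tsum_nonneg fun i => by positivity)
      ((measure_iUnion_le _).trans ?_)
    rw [ENNReal.ofReal_tsum_of_nonneg (fun i => by positivity) h1]
    exact ENNReal.tsum_le_tsum fun i => (ofReal_measureReal (measure_ne_top _ _)).symm.trans_le
      (ENNReal.ofReal_le_ofReal (h.bad_le p A x _ _))
  have hl := tendsto_sum_nat_add b
  obtain ⟨k0, hk0⟩ := (hl.eventually_le_const (show (0 : ℝ) < 1 / 2 by norm_num)).exists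
  set r := (C * (k0 + 2)) ^ 2 + 2 * M + 1 with hr
  set δ : ℝ := p ^ (M * (2 * r + 1) ^ 2) with hδ
  have δ0 : 0 < δ := by positivity
  have δ1 : δ ≤ 1 := pow_le_one₀ q1.le (by linarith)
  have key : ∀ K k1 : ℕ, μ.real (invasionSet (lineGraph L))ᶜ
      ≤ (1 - δ / 2) ^ K + K * ∑' i, b (i + k1) := by
    intro K k1
    set D := r + R k1 with hD
    set x : ℕ → ℂ := fun j => (j * (2 * D + 1) : ℝ) with hx
    set G : ℕ → Set (crossings L → Bool) := fun j => Cy (h.bl (x j) r) true \
      ⋃ k ∈ Finset.Ico k0 k1, Bad L (x j) (R k) k with hG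
    have g1 : ∀ j, Dep (h.bl (x j) D) (G j) := by
      rintro j c c' h1 ⟨h2, h3⟩
      refine ⟨(dep_cy _ _).mono (fun v hv => h.mem_bl.2 ((h.mem_bl.1 hv).trans
        (Nat.cast_le.2 (Nat.le_add_right _ _)))) c c' h1 h2, fun h4 => h3 ?_⟩
      obtain ⟨k, hk, h5⟩ := mem_iUnion₂.1 h4
      have h6 : R k ≤ D := by
        have := (Finset.mem_Ico.1 hk).2.le
        refine le_trans ?_ (Nat.le_add_left _ _)
        simp only [hR]
        gcongr
      exact mem_biUnion hk ((h.dep_bad _ _ _).mono (fun v hv => h.mem_bl.2 ((h.mem_bl.1 hv).trans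
        (Nat.cast_le.2 h6))) c' c (fun v hv => (h1 v hv).symm) h5)
    have g2 : ∀ j, μ.real (G j)ᶜ ≤ 1 - δ / 2 := by
      intro j
      have h1 := ht (h.bl (x j) r) (x j) k0
      have h2 : δ ≤ μ.real (Cy (h.bl (x j) r) true) := by
        rw [cy_real]
        exact pow_le_pow_of_le_one q1.le (by linarith) (h.card_bl _ _)
      have h3 : Cy (h.bl (x j) r) true ⊆ G j ∪
          Cy (h.bl (x j) r) true ∩ ⋃ i, Bad L (x j) (R (i + k0)) (i + k0) := by
        intro c hc
        by_cases h4 : c ∈ ⋃ k ∈ Finset.Ico k0 k1, Bad L (x j) (R k) k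
        · obtain ⟨k, hk, h5⟩ := mem_iUnion₂.1 h4
          obtain ⟨i, rfl⟩ := Nat.exists_eq_add_of_le' (Finset.mem_Ico.1 hk).1
          exact Or.inr ⟨hc, mem_iUnion.2 ⟨i, h5⟩⟩
        · exact Or.inl ⟨hc, h4⟩
      have h4 := (measureReal_mono (μ := μ) h3).trans (measureReal_union_le _ _)
      rw [probReal_compl_eq_one_sub (g1 j).meas]
      nlinarith
    have g3 : ∀ n : ℕ, μ.real (⋂ j ∈ Finset.range n, (G j)ᶜ) ≤ (1 - δ / 2) ^ n := by
      intro n
      induction n with
      | zero => simp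
      | succ n ih =>
        have h1 : Dep ((Finset.range n).biUnion fun j => h.bl (x j) D)
            (⋂ j ∈ Finset.range n, (G j)ᶜ) := fun c c' h1 h2 => mem_iInter₂.2 fun j hj =>
          (g1 j).compl.mono (Finset.subset_biUnion_of_mem (fun j => h.bl (x j) D) hj) c c' h1
            (mem_iInter₂.1 h2 j hj)
        rw [Finset.range_add_one, Finset.set_biInter_insert, (g1 n).compl.indep h1 (by
          rw [Finset.disjoint_biUnion_right]
          refine fun j hj => Finset.disjoint_left.2 fun v v1 v2 => ?_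
          have h2 := dist_triangle_left (x n) (x j) v
          have h3 : (j : ℝ) + 1 ≤ n := by exact_mod_cast Finset.mem_range.1 hj
          rw [hx, Complex.dist_of_im_eq (by simp), Complex.ofReal_re, Complex.ofReal_re,
            Real.dist_eq] at h2
          have h4 := h.mem_bl.1 v1
          have h5 := h.mem_bl.1 v2
          have h6 := le_abs_self ((n : ℝ) * (2 * D + 1) - j * (2 * D + 1))
          nlinarith [(Nat.cast_nonneg D : (0 : ℝ) ≤ D)]), pow_succ']
        exact mul_le_mul (g2 n) ih measureReal_nonneg (by linarith)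
    have g4 : (invasionSet (lineGraph L))ᶜ ⊆ (⋂ j ∈ Finset.range K, (G j)ᶜ) ∪
        ⋃ j ∈ Finset.range K, Cy ∅ true ∩ ⋃ i, Bad L (x j) (R (i + k1)) (i + k1) := by
      intro c hc
      by_cases h1 : c ∈ ⋂ j ∈ Finset.range K, (G j)ᶜ
      · exact Or.inl h1
      simp only [mem_iInter, not_forall, mem_compl_iff, not_not] at h1
      obtain ⟨j, hj, h2, h3⟩ := h1
      obtain ⟨k, a1, a2⟩ := hC c hc (x j) k0 fun v hv => h2 v (h.mem_bl.2 hv)
      have a3 : k1 ≤ k := not_lt.1 fun a3 => h3 (mem_biUnion (Finset.mem_Ico.2 ⟨a1, a3⟩) a2)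
      obtain ⟨i, rfl⟩ := Nat.exists_eq_add_of_le' a3
      exact Or.inr (mem_biUnion hj ⟨by simp [Cy], mem_iUnion.2 ⟨i, a2⟩⟩)
    refine (measureReal_mono g4).trans ((measureReal_union_le _ _).trans (add_le_add (g3 K)
      ((measureReal_biUnion_finset_le _ _).trans ((Finset.sum_le_card_nsmul _ _ _
        fun j _ => ht ∅ (x j) k1).trans ?_))))
    rw [cy_real]
    simp
  have h1 : ∀ K : ℕ, μ.real (invasionSet (lineGraph L))ᶜ ≤ (1 - δ / 2) ^ K := fun K => by
    simpa using ge_of_tendsto' ((hl.const_mul (K : ℝ)).const_add ((1 - δ / 2) ^ K)) (key K)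
  have h2 := ge_of_tendsto' (tendsto_pow_atTop_nhds_zero_of_lt_one (r := 1 - δ / 2)
    (by linarith) (by linarith)) h1
  rw [measure_congr (ae_eq_univ.2 ((measureReal_eq_zero_iff (measure_ne_top _ _)).1
    (le_antisymm h2 measureReal_nonneg))), measure_univ]

end Pool.Agent.MP_38c1f8_pr.Ln
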